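import Mathlib
import Pool.Agent.N604.MW.DFin

/-! Metric Waring problem with variables in arbitrary sets: one scale. -/

set_option autoImplicit false

namespace Pool.Agent.N732.Arb

open Finset MeasureTheory Pool.Agent.N604.MW

variable {d : ℕ} {c b : ℝ} {θ : Fin d → ℝ}

lemma ppoint' : S_PPOINT := Pool.Agent.N868.PWP.ppoint pweyl_all
lemma plow' : S_PLOW := Pool.Agent.N46.PW.plow ppoint'
lemma ptpoint' : S_PTPOINT := Pool.Agent.N868.PWT.ptpoint ppoint' Pool.Agent.N141.MWF.floor_series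

/-- the energy of a subset of the box -/
lemma EnT_le {X : ℕ} {T : Finset (Fin (d + 1) → ℕ)} (hT : T ⊆ Box (d + 1) X) :
    En T (vw d c b θ) (fun _ => 1) ≤ ((Pairs d c θ X).card : ℝ) := by
  classical
  have h1 : En T (vw d c b θ) (fun _ => 1) =
      (((T ×ˢ T).filter (fun p => vw d c b θ p.1 = vw d c b θ p.2)).card : ℝ) := by
    unfold En
    rw [← sum_product' T T (fun ω ω' => if vw d c b θ ω = vw d c b θ ω' then (1 : ℝ) * 1 else 0),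
      card_filter]
    push_cast
    apply sum_congr rfl
    intro p _
    simp
  rw [h1]
  refine Nat.cast_le.2 (card_le_card fun p hp => ?_)
  rw [mem_filter, mem_product] at hp
  unfold Pairs
  rw [mem_filter, mem_product]
  exact ⟨⟨hT hp.1.1, hT hp.1.2⟩, close_of_vw_eq hp.2⟩

/-- the constants and the window bounds at one scale -/
def Scale (d : ℕ) (c b : ℝ) (θ : Fin d → ℝ) (v C0 : ℕ) (κ σ : ℝ) (X : ℕ) : Prop :=
  (∀ T T' : Finset (Fin (d + 1) → ℕ), T ⊆ Box (d + 1) X → T' ⊆ Box (d + 1) X →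
    (X : ℝ) ^ (2 * ((d : ℝ) + 1) - σ / 4) ≤ (T.card : ℝ) * T'.card →
    ∀ N : ℤ, (2 * v + 1) * (X : ℤ) ^ (d + 1) ≤ N → N ≤ 2 ^ (d + 1) * ((2 * v + 1) * (X : ℤ) ^ (d + 1)) →
      κ * (T.card * T'.card) / (X : ℝ) ^ d ≤ R3 T T' (Finset.Ico 1 (C0 * X)) (vw d c b θ) (vw d c b θ)
        (fun _ => 1) (fun _ => 1) (aw d c b θ) (wwL d c b θ lam) N) ∧
  (∀ T : Finset (Fin (d + 1) → ℕ), T ⊆ Box (d + 1) X → (X : ℝ) ^ (((d : ℝ) + 1) - σ / 8) ≤ (T.card : ℝ) →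
    ∀ S : Finset ℤ, (∀ N ∈ S, (2 * v + 1) * (X : ℤ) ^ (d + 1) ≤ N ∧
      N ≤ 2 ^ (d + 1) * ((2 * v + 1) * (X : ℤ) ^ (d + 1)) ∧
      R1 T (Finset.Ico 1 (C0 * X)) (vw d c b θ) (fun _ => 1) (aw d c b θ) (wwL d c b θ lam) N = 0) →
    (S.card : ℝ) ≤ (X : ℝ) ^ ((d : ℝ) + 1 - σ))

theorem scale_core (d : ℕ) (c b : ℝ) (θ : Fin d → ℝ) (hd : 1 ≤ d) (hc : 0 < c) (hDio : Dio d c θ)
    (hM : MeanP d c θ) :
    ∃ v C0 : ℕ, ∃ κ σ : ℝ, 0 < κ ∧ 0 < σ ∧ ∃ ν0 : ℕ, ∀ ν : ℕ, ν0 ≤ ν → Scale d c b θ v C0 κ σ (2 ^ ν) := by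
  obtain ⟨v, Xa, hv⟩ := Pool.Agent.N547.MW.size d c b θ hc
  obtain ⟨C0, κL, σL, hκL, hσL, Xc, hlow⟩ := plow' d c b θ hd hc hDio (2 ^ (d + 1) * (2 * v + 1)) (by
    have h1 : (1 : ℝ) ≤ 2 ^ (d + 1) := one_le_pow₀ (by norm_num)
    have h2 : (1 : ℝ) ≤ 2 * v + 1 := by
      have : (0 : ℝ) ≤ v := Nat.cast_nonneg v
      linarith
    calc (1 : ℝ) = 1 * 1 := by ring
      _ ≤ _ := mul_le_mul h1 h2 (by norm_num) (by linarith))
  set δ : ℝ := min σL 1 / 4 with hδ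
  have hm0 : 0 < min σL 1 := lt_min hσL one_pos
  have hδ0 : 0 < δ := by rw [hδ]; linarith
  have hδσ : 3 * δ ≤ σL := by
    have := min_le_left σL 1
    rw [hδ]; linarith
  obtain ⟨σ, hσ, Xd, htp⟩ := ptpoint' d c b θ hd hc hDio C0 δ hδ0
  set ε : ℝ := δ / 2 with hε
  have hε0 : 0 < ε := by linarith
  obtain ⟨Xe, hbd⟩ := lam_bound C0 ε hε0
  obtain ⟨νe, hmean⟩ := hM (σ / 2) (by linarith)
  obtain ⟨X1, h1⟩ := big (3 * δ) 2 (by linarith)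
  obtain ⟨X2, h2⟩ := big (δ / 2) (64 * C0 / κL) (by linarith)
  obtain ⟨X3, h3⟩ := big (σ / 4) (8 / κL) (by linarith)
  obtain ⟨X4, h4⟩ := big (σ / 4) (4 * (2 / κL) ^ 2) (by linarith)
  refine ⟨v, C0, κL / 4, σ, by positivity, hσ,
    Xa + Xc + Xd + Xe + νe + X1 + X2 + X3 + X4 + 1, ?_⟩
  intro ν hν
  have hXν : ν < 2 ^ ν := Nat.lt_two_pow_self
  have hmean' := hmean ν (by omega)
  have hcast : ((2 : ℝ) ^ ν) = ((2 ^ ν : ℕ) : ℝ) := by push_cast; ring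
  rw [hcast] at hmean'
  generalize hX : 2 ^ ν = X at hmean' hXν
  have hXa : Xa ≤ X := by omega
  have hXc : Xc ≤ X := by omega
  have hXd : Xd ≤ X := by omega
  replace hbd := hbd X (by omega)
  replace h1 := h1 X (by omega)
  replace h2 := h2 X (by omega)
  replace h3 := h3 X (by omega)
  replace h4 := h4 X (by omega)
  have hX1 : 1 ≤ X := by omega
  have hx1 : (1 : ℝ) ≤ X := by exact_mod_cast hX1
  have hx0 : (0 : ℝ) < X := by linarith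
  clear hν
  -- the window
  set W : ℕ := ⌈(X : ℝ) ^ ((d : ℝ) + 1 - 3 * δ)⌉₊ with hW
  have hWlo : (X : ℝ) ^ ((d : ℝ) + 1 - 3 * δ) ≤ W := Nat.le_ceil _
  have hWpos : (0 : ℝ) < (X : ℝ) ^ ((d : ℝ) + 1 - 3 * δ) := Real.rpow_pos_of_pos hx0 _
  have hexp0 : 0 ≤ (d : ℝ) + 1 - 3 * δ := by
    have e1 : δ ≤ 1 / 4 := by
      have := min_le_right σL 1
      rw [hδ]; linarith
    have e2 : (0 : ℝ) ≤ d := Nat.cast_nonneg d
    linarith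
  have hW1' : (1 : ℝ) ≤ (X : ℝ) ^ ((d : ℝ) + 1 - 3 * δ) := Real.one_le_rpow hx1 hexp0
  have hWhi : (W : ℝ) ≤ 2 * (X : ℝ) ^ ((d : ℝ) + 1 - 3 * δ) := by
    have := Nat.ceil_lt_add_one hWpos.le
    rw [← hW] at this
    linarith
  have hW1 : 1 ≤ W := by
    have : (1 : ℝ) ≤ W := hW1'.trans hWlo
    exact_mod_cast this
  have hW0 : (0 : ℝ) < W := by exact_mod_cast hW1
  have hxk : (X : ℝ) ^ ((d : ℝ) + 1) = (X : ℝ) ^ (d + 1) := by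
    rw [← Real.rpow_natCast]; push_cast; ring_nf
  have hWX : (W : ℝ) ≤ (X : ℝ) ^ (d + 1) := by
    calc (W : ℝ) ≤ 2 * (X : ℝ) ^ ((d : ℝ) + 1 - 3 * δ) := hWhi
      _ ≤ (X : ℝ) ^ (3 * δ) * (X : ℝ) ^ ((d : ℝ) + 1 - 3 * δ) := by gcongr
      _ = (X : ℝ) ^ (d + 1) := by
          rw [← Real.rpow_add hx0, ← hxk]; congr 1; ring
  have hWL : (X : ℝ) ^ ((d : ℝ) + 1 - σL) ≤ W := by
    refine le_trans ?_ hWlo
    apply Real.rpow_le_rpow_of_exponent_le hx1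
    linarith
  -- names
  set L := Finset.Ico 1 (C0 * X) with hL
  set vv := vw d c b θ with hvv
  set aa := aw d c b θ with haa
  set wt := wwL d c b θ lam with hwt
  have hw0 : ∀ l, 0 ≤ wt l := fun l => wwL_nonneg lam_nonneg l
  have hvP : ∀ ω ∈ Box (d + 1) X, 0 ≤ vv ω ∧ vv ω ≤ v * (X : ℤ) ^ (d + 1) := fun ω hω => hv X ω hXa hω
  have hXε : 0 ≤ (X : ℝ) ^ ε := Real.rpow_nonneg hx0.le _
  have hwsum : ∑ l ∈ L, wt l ≤ C0 * X * (X : ℝ) ^ ε := by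
    calc ∑ l ∈ L, wt l ≤ ∑ _l ∈ L, (X : ℝ) ^ ε := by
          apply sum_le_sum; intro l hl
          refine (wwL_le lam_nonneg l).trans (hbd l ?_)
          exact (Finset.mem_Ico.mp hl).2.le
      _ = (L.card : ℝ) * (X : ℝ) ^ ε := by simp
      _ ≤ C0 * X * (X : ℝ) ^ ε := by
        apply mul_le_mul_of_nonneg_right _ hXε
        rw [hL, Nat.card_Ico]
        have : C0 * X - 1 ≤ C0 * X := Nat.sub_le _ _
        exact_mod_cast this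
  have hwsum0 : 0 ≤ ∑ l ∈ L, wt l := sum_nonneg fun l _ => hw0 l
  -- the window lower bound
  have hq : ∀ M : ℤ, (X : ℤ) ^ (d + 1) ≤ M → M ≤ 2 ^ (d + 1) * ((2 * v + 1) * (X : ℤ) ^ (d + 1)) →
      κL * W / (X : ℝ) ^ d ≤ ∑ l ∈ L.filter (fun l => M ≤ aa l ∧ aa l < M + W), wt l := by
    intro M hM1 hM2
    have e1 : ((X : ℝ)) ^ (d + 1) ≤ M := by exact_mod_cast hM1
    have e2 : (M : ℝ) ≤ 2 ^ (d + 1) * (2 * v + 1) * (X : ℝ) ^ (d + 1) := by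
      have : (M : ℝ) ≤ ((2 ^ (d + 1) * ((2 * v + 1) * (X : ℤ) ^ (d + 1)) : ℤ) : ℝ) := by exact_mod_cast hM2
      push_cast at this
      linarith
    have e3 := hlow X W M hXc e1 e2 hWL hWX
    refine e3.trans (le_of_eq ?_)
    apply sum_congr _ (fun _ _ => rfl)
    ext l
    simp only [mem_filter, mem_range, hL, Finset.mem_Ico, haa, aw]
    constructor
    · rintro ⟨h1, h2, h3, h4⟩; exact ⟨⟨h2, h1⟩, h3, h4⟩
    · rintro ⟨⟨h2, h1⟩, h3, h4⟩; exact ⟨h1, h2, h3, h4⟩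
  -- minor arcs
  set τ : ℝ := (X : ℝ) ^ (1 - σ) with hτ
  set η : ℝ := (X : ℝ) ^ (-((d : ℝ) + 1) + δ) with hη
  have hτ0 : 0 ≤ τ := Real.rpow_nonneg hx0.le _
  have hη0 : 0 ≤ η := Real.rpow_nonneg hx0.le _
  have hminor : ∀ α : ℝ, η ≤ |α| → |α| ≤ 1 / 2 → ‖∑ l ∈ L, (wt l : ℂ) * e (α * aa l)‖ ≤ τ := by
    intro α hα1 hα2
    by_cases hC0 : C0 * X = 0
    · have : L = ∅ := by rw [hL, hC0]; rfl
      rw [this, sum_empty, norm_zero]; exact hτ0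
    have hpos : 1 ≤ C0 * X := Nat.one_le_iff_ne_zero.mpr hC0
    have := htp X 1 (C0 * X - 1) hXd (by omega) α hα1 hα2
    refine le_trans (le_of_eq ?_) this
    rw [hL, Finset.sum_Ico_eq_sum_range]
    rfl
  have hEn : ∀ T : Finset (Fin (d + 1) → ℕ), T ⊆ Box (d + 1) X →
      En T vv (fun _ => 1) ≤ (X : ℝ) ^ ((d : ℝ) + 1 + σ / 2) := fun T hT =>
    (EnT_le hT).trans (by rw [← hX] at hmean' ⊢; exact hmean')
  -- the major arc error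
  have hmaj : 16 * W * η ^ 2 * (∑ l ∈ L, wt l) ≤ κL / 2 / (X : ℝ) ^ d := by
    have e1 : (X : ℝ) ^ ((d : ℝ) + 1 - 3 * δ) * η ^ 2 * X * (X : ℝ) ^ ε = (X : ℝ) ^ (-δ + ε) / (X : ℝ) ^ d := by
      rw [hη, sq, ← Real.rpow_add hx0, ← Real.rpow_add hx0]
      rw [show (X : ℝ) ^ ((d : ℝ) + 1 - 3 * δ + (-((d : ℝ) + 1) + δ + (-((d : ℝ) + 1) + δ))) * X =
        (X : ℝ) ^ ((d : ℝ) + 1 - 3 * δ + (-((d : ℝ) + 1) + δ + (-((d : ℝ) + 1) + δ))) * (X : ℝ) ^ (1 : ℝ) by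
          rw [Real.rpow_one]]
      rw [← Real.rpow_add hx0, ← Real.rpow_add hx0, ← Real.rpow_natCast (X : ℝ) d, ← Real.rpow_sub hx0]
      congr 1; ring
    have e2 : (X : ℝ) ^ (-δ + ε) * (64 * C0) ≤ κL := by
      have e3 : (X : ℝ) ^ (-δ + ε) ≤ (X : ℝ) ^ (-(δ / 2)) :=
        Real.rpow_le_rpow_of_exponent_le hx1 (by linarith)
      have e4 : (X : ℝ) ^ (-(δ / 2)) * (64 * C0) ≤ κL := by
        rw [Real.rpow_neg hx0.le, inv_mul_le_iff₀ (Real.rpow_pos_of_pos hx0 _)]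
        rw [div_le_iff₀ hκL] at h2
        exact h2
      refine le_trans ?_ e4
      gcongr
    calc 16 * W * η ^ 2 * (∑ l ∈ L, wt l)
        ≤ 16 * (2 * (X : ℝ) ^ ((d : ℝ) + 1 - 3 * δ)) * η ^ 2 * (C0 * X * (X : ℝ) ^ ε) := by gcongr
      _ = 32 * C0 * ((X : ℝ) ^ ((d : ℝ) + 1 - 3 * δ) * η ^ 2 * X * (X : ℝ) ^ ε) := by ring
      _ = ((X : ℝ) ^ (-δ + ε) * (64 * C0)) / 2 / (X : ℝ) ^ d := by rw [e1]; ring
      _ ≤ κL / 2 / (X : ℝ) ^ d := by gcongr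
  refine ⟨?_, ?_⟩
  · intro T T' hT hT' hcard N hN1 hN2
    have hc2 := Pool.Agent.N712.PD.dcirc2 (Fin (d + 1) → ℕ) ℕ T T' L vv vv (fun _ => 1) (fun _ => 1) aa wt
      W η τ 0 0 ∅ (fun _ => zero_le_one) (fun _ => zero_le_one) hw0 hW1 hη0 hτ0 le_rfl le_rfl
      (fun α hα1 hα2 => Or.inl (hminor α hα1 hα2)) N
    set m1 : ℝ := (T.card : ℝ) with hm1
    set m2 : ℝ := (T'.card : ℝ) with hm2
    have hs1 : ∑ _ω ∈ T, (1 : ℝ) = m1 := by simp [hm1]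
    have hs2 : ∑ _ω ∈ T', (1 : ℝ) = m2 := by simp [hm2]
    have hm10 : 0 ≤ m1 := Nat.cast_nonneg _
    have hm20 : 0 ≤ m2 := Nat.cast_nonneg _
    have hwin : m1 * m2 * (κL * W / (X : ℝ) ^ d) ≤
        ∑ h ∈ range W, R3 T T' L vv vv (fun _ => 1) (fun _ => 1) aa wt (N + h) := by
      have := R3_window_ge T T' L vv vv (fun _ => 1) (fun _ => 1) aa wt W N (fun _ => zero_le_one)
        (fun _ => zero_le_one) (κL * W / (X : ℝ) ^ d) ((X : ℤ) ^ (d + 1)) (v * (X : ℤ) ^ (d + 1))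
        (fun ω hω => hvP ω (hT hω)) (fun ω hω => hvP ω (hT' hω)) (by linarith)
        (fun M hM1 hM2 => hq M hM1 (hM2.trans hN2))
      rwa [hs1, hs2] at this
    have hmn : m1 * m2 * (κL / (X : ℝ) ^ d) ≤
        (∑ h ∈ range W, R3 T T' L vv vv (fun _ => 1) (fun _ => 1) aa wt (N + h)) / W := by
      rw [le_div_iff₀ hW0]
      refine le_trans (le_of_eq ?_) hwin
      ring
    rw [hs1, hs2] at hc2
    have a0 := (abs_le.mp hc2).1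
    have a1 : 16 * W * η ^ 2 * m1 * m2 * (∑ l ∈ L, wt l) ≤ m1 * m2 * (κL / 2 / (X : ℝ) ^ d) := by
      calc 16 * W * η ^ 2 * m1 * m2 * (∑ l ∈ L, wt l) = m1 * m2 * (16 * W * η ^ 2 * (∑ l ∈ L, wt l)) := by ring
        _ ≤ _ := by gcongr
    have a2 : τ * (En T vv (fun _ => 1) + En T' vv (fun _ => 1)) ≤ 2 * (X : ℝ) ^ ((d : ℝ) + 2 - σ / 2) := by
      calc τ * (En T vv (fun _ => 1) + En T' vv (fun _ => 1)) ≤
          τ * ((X : ℝ) ^ ((d : ℝ) + 1 + σ / 2) + (X : ℝ) ^ ((d : ℝ) + 1 + σ / 2)) := by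
            have := hEn T hT
            have := hEn T' hT'
            gcongr
        _ = 2 * ((X : ℝ) ^ (1 - σ) * (X : ℝ) ^ ((d : ℝ) + 1 + σ / 2)) := by rw [hτ]; ring
        _ = 2 * (X : ℝ) ^ ((d : ℝ) + 2 - σ / 2) := by
          rw [← Real.rpow_add hx0]; congr 2; ring
    have a3 : 2 * (X : ℝ) ^ ((d : ℝ) + 2 - σ / 2) ≤ κL / 4 * (m1 * m2) / (X : ℝ) ^ d := by
      rw [le_div_iff₀ (by positivity)]
      have e1 : (X : ℝ) ^ ((d : ℝ) + 2 - σ / 2) * (X : ℝ) ^ d * (X : ℝ) ^ (σ / 4) =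
          (X : ℝ) ^ (2 * ((d : ℝ) + 1) - σ / 4) := by
        rw [← Real.rpow_natCast (X : ℝ) d, ← Real.rpow_add hx0, ← Real.rpow_add hx0]
        congr 1; ring
      have e2 : 8 ≤ κL * (X : ℝ) ^ (σ / 4) := by
        rw [div_le_iff₀ hκL] at h3
        linarith
      have e3 : 0 ≤ (X : ℝ) ^ ((d : ℝ) + 2 - σ / 2) * (X : ℝ) ^ d := by positivity
      calc 2 * (X : ℝ) ^ ((d : ℝ) + 2 - σ / 2) * (X : ℝ) ^ d
          = (8 / 4) * ((X : ℝ) ^ ((d : ℝ) + 2 - σ / 2) * (X : ℝ) ^ d) := by ring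
        _ ≤ ((κL * (X : ℝ) ^ (σ / 4)) / 4) * ((X : ℝ) ^ ((d : ℝ) + 2 - σ / 2) * (X : ℝ) ^ d) := by gcongr
        _ = κL / 4 * ((X : ℝ) ^ ((d : ℝ) + 2 - σ / 2) * (X : ℝ) ^ d * (X : ℝ) ^ (σ / 4)) := by ring
        _ = κL / 4 * (X : ℝ) ^ (2 * ((d : ℝ) + 1) - σ / 4) := by rw [e1]
        _ ≤ κL / 4 * (m1 * m2) := by gcongr
    have a4 : m1 * m2 * (κL / (X : ℝ) ^ d) = 2 * (m1 * m2 * (κL / 2 / (X : ℝ) ^ d)) := by ring
    have a5 : m1 * m2 * (κL / 2 / (X : ℝ) ^ d) = 2 * (κL / 4 * (m1 * m2) / (X : ℝ) ^ d) := by ring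
    simp only [mul_zero, zero_mul, add_zero] at a0
    linarith
  · intro T hT hcard S hS
    set m1 : ℝ := (T.card : ℝ) with hm1
    have hs1 : ∑ _ω ∈ T, (1 : ℝ) = m1 := by simp [hm1]
    have hm10 : 0 < m1 := lt_of_lt_of_le (Real.rpow_pos_of_pos hx0 _) hcard
    set ρ : ℝ := m1 * (κL / 2 / (X : ℝ) ^ d) with hρ
    have hρ0 : 0 < ρ := by positivity
    have hkey := Pool.Agent.N624.MWCirc.circ1 (Fin (d + 1) → ℕ) ℕ T L vv (fun _ => 1) aa wt W η τ ρ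
      (fun _ => zero_le_one) hw0 hW1 hη0 hτ0 hρ0.le hminor S (by
      intro N hN
      obtain ⟨hN1, hN2, hN3⟩ := hS N hN
      have hwin : m1 * (κL * W / (X : ℝ) ^ d) ≤ ∑ h ∈ range W, R1 T L vv (fun _ => 1) aa wt (N + h) := by
        have := R1_window_ge T L vv (fun _ => 1) aa wt W N (fun _ => zero_le_one) (κL * W / (X : ℝ) ^ d)
          ((X : ℤ) ^ (d + 1)) (v * (X : ℤ) ^ (d + 1)) (fun ω hω => hvP ω (hT hω)) (by
            have : (0 : ℤ) ≤ v * (X : ℤ) ^ (d + 1) := by positivity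
            linarith) (fun M hM1 hM2 => hq M hM1 (hM2.trans hN2))
        rwa [hs1] at this
      have hmn : m1 * (κL / (X : ℝ) ^ d) ≤ (∑ h ∈ range W, R1 T L vv (fun _ => 1) aa wt (N + h)) / W := by
        rw [le_div_iff₀ hW0]
        refine le_trans (le_of_eq ?_) hwin
        ring
      rw [hN3, zero_sub, abs_neg, hs1]
      refine le_trans ?_ (le_abs_self _)
      refine le_trans ?_ hmn
      have a1 : 16 * W * η ^ 2 * m1 * (∑ l ∈ L, wt l) ≤ m1 * (κL / 2 / (X : ℝ) ^ d) := by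
        calc 16 * W * η ^ 2 * m1 * (∑ l ∈ L, wt l) = m1 * (16 * W * η ^ 2 * (∑ l ∈ L, wt l)) := by ring
          _ ≤ _ := by gcongr
      have a3 : m1 * (κL / (X : ℝ) ^ d) = 2 * (m1 * (κL / 2 / (X : ℝ) ^ d)) := by ring
      rw [a3]; linarith)
    have b1 : (S.card : ℝ) * ρ ^ 2 ≤ 4 * (X : ℝ) ^ ((d : ℝ) + 3 - 3 * (σ / 2)) := by
      refine hkey.trans ?_
      calc 4 * τ ^ 2 * En T vv (fun _ => 1) ≤ 4 * τ ^ 2 * (X : ℝ) ^ ((d : ℝ) + 1 + σ / 2) := by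
            have := hEn T hT
            gcongr
        _ = 4 * (X : ℝ) ^ ((d : ℝ) + 3 - 3 * (σ / 2)) := by
          rw [hτ, sq, mul_assoc, ← Real.rpow_add hx0, ← Real.rpow_add hx0]; congr 2; ring
    -- `ρ ^ 2` is at least `(κL / 2) ^ 2 X ^ (2 - σ / 4)`
    have b2 : (κL / 2) ^ 2 * (X : ℝ) ^ (2 - σ / 4) ≤ ρ ^ 2 := by
      have e1 : (X : ℝ) ^ (1 - σ / 8) * (X : ℝ) ^ d = (X : ℝ) ^ (((d : ℝ) + 1) - σ / 8) := by
        rw [← Real.rpow_natCast (X : ℝ) d, ← Real.rpow_add hx0]; congr 1; ring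
      have e2 : κL / 2 * (X : ℝ) ^ (1 - σ / 8) ≤ ρ := by
        have : (X : ℝ) ^ (1 - σ / 8) ≤ m1 / (X : ℝ) ^ d := by
          rw [le_div_iff₀ (by positivity), e1]; exact hcard
        calc κL / 2 * (X : ℝ) ^ (1 - σ / 8) ≤ κL / 2 * (m1 / (X : ℝ) ^ d) := by gcongr
          _ = ρ := by rw [hρ]; ring
      have e3 : ((X : ℝ) ^ (1 - σ / 8)) ^ 2 = (X : ℝ) ^ (2 - σ / 4) := by
        rw [sq, ← Real.rpow_add hx0]; congr 1; ring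
      calc (κL / 2) ^ 2 * (X : ℝ) ^ (2 - σ / 4) = (κL / 2 * (X : ℝ) ^ (1 - σ / 8)) ^ 2 := by
            rw [mul_pow, e3]
        _ ≤ ρ ^ 2 := by gcongr
    have b3 : (S.card : ℝ) * ((κL / 2) ^ 2 * (X : ℝ) ^ (2 - σ / 4)) ≤
        4 * (X : ℝ) ^ ((d : ℝ) + 3 - 3 * (σ / 2)) := by
      refine le_trans ?_ b1
      gcongr
    have b4 : 4 * (X : ℝ) ^ ((d : ℝ) + 3 - 3 * (σ / 2)) ≤
        (X : ℝ) ^ ((d : ℝ) + 1 - σ) * ((κL / 2) ^ 2 * (X : ℝ) ^ (2 - σ / 4)) := by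
      have e1 : (X : ℝ) ^ ((d : ℝ) + 1 - σ) * (X : ℝ) ^ (2 - σ / 4) =
          (X : ℝ) ^ ((d : ℝ) + 3 - 3 * (σ / 2)) * (X : ℝ) ^ (σ / 4) := by
        rw [← Real.rpow_add hx0, ← Real.rpow_add hx0]; congr 1; ring
      have e2 : 4 ≤ (κL / 2) ^ 2 * (X : ℝ) ^ (σ / 4) := by
        have e4 : (κL / 2) ^ 2 * (4 * (2 / κL) ^ 2) = 4 := by field_simp; try ring
        calc (4 : ℝ) = (κL / 2) ^ 2 * (4 * (2 / κL) ^ 2) := e4.symm
          _ ≤ _ := by gcongr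
      have e3 : 0 ≤ (X : ℝ) ^ ((d : ℝ) + 3 - 3 * (σ / 2)) := by positivity
      calc 4 * (X : ℝ) ^ ((d : ℝ) + 3 - 3 * (σ / 2))
          ≤ ((κL / 2) ^ 2 * (X : ℝ) ^ (σ / 4)) * (X : ℝ) ^ ((d : ℝ) + 3 - 3 * (σ / 2)) := by gcongr
        _ = (κL / 2) ^ 2 * ((X : ℝ) ^ ((d : ℝ) + 3 - 3 * (σ / 2)) * (X : ℝ) ^ (σ / 4)) := by ring
        _ = (κL / 2) ^ 2 * ((X : ℝ) ^ ((d : ℝ) + 1 - σ) * (X : ℝ) ^ (2 - σ / 4)) := by rw [e1]
        _ = _ := by ring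
    exact le_of_mul_le_mul_right (b3.trans b4) (by positivity)

end Pool.Agent.N732.Arb
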