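import Mathlib
import Pool.Agent.N732.Arb

/-! Metric Waring problem with variables in arbitrary sets: all scales. -/

set_option autoImplicit false

namespace Pool.Agent.N732.Arb

open Finset MeasureTheory Pool.Agent.N604.MW

variable {d : ℕ} {c b : ℝ} {θ : Fin d → ℝ}

lemma Scale.mono {v C0 : ℕ} {κ σ σ' : ℝ} {X : ℕ} (hσ : σ' ≤ σ) (hX : 1 ≤ X)
    (h : Scale d c b θ v C0 κ σ X) : Scale d c b θ v C0 κ σ' X := by
  have hx1 : (1 : ℝ) ≤ X := by exact_mod_cast hX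
  refine ⟨fun T T' hT hT' hcard => h.1 T T' hT hT' (le_trans ?_ hcard), fun T hT hcard S hS =>
    (h.2 T hT (le_trans ?_ hcard) S hS).trans ?_⟩
  all_goals
    apply Real.rpow_le_rpow_of_exponent_le hx1
    linarith

/-- `A` has at least `x ^ (1 - δ)` elements in `(x, (1 + 1 / (2 k)) x]` for all large `x` -/
def Loc (k : ℕ) (δ : ℝ) (A : Set ℕ) : Prop := ∃ x0 : ℕ, ∀ x : ℕ, x0 ≤ x →
  (x : ℝ) ^ (1 - δ) ≤ ({a : ℕ | a ∈ A ∧ x < a ∧ 2 * k * a ≤ (2 * k + 1) * x}.ncard : ℝ)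

open Classical in
/-- the tuples of the box with coordinates in the given sets -/
noncomputable def TB (k : ℕ) (A : Fin k → Set ℕ) (X : ℕ) : Finset (Fin k → ℕ) :=
  Fintype.piFinset fun i => (Finset.Icc (2 * ((i : ℕ) + 1) * X) ((2 * ((i : ℕ) + 1) + 1) * X)).filter (fun a => a ∈ A i)

lemma TB_sub (k : ℕ) (A : Fin k → Set ℕ) (X : ℕ) : TB k A X ⊆ Box k X := by
  classical
  intro n hn
  unfold TB at hn
  unfold Box
  rw [Fintype.mem_piFinset] at hn ⊢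
  intro i
  exact (mem_filter.1 (hn i)).1

lemma TB_mem {k : ℕ} {A : Fin k → Set ℕ} {X : ℕ} {n : Fin k → ℕ} (hn : n ∈ TB k A X) (i : Fin k) :
    n i ∈ A i := by
  classical
  unfold TB at hn
  rw [Fintype.mem_piFinset] at hn
  exact (mem_filter.1 (hn i)).2

lemma TB_card (k : ℕ) (A : Fin k → Set ℕ) (δ : ℝ) (hδ1 : δ ≤ 1) (hA : ∀ i, Loc k δ (A i)) :
    ∃ X0 : ℕ, ∀ X : ℕ, X0 ≤ X → (X : ℝ) ^ ((k : ℝ) * (1 - δ)) ≤ ((TB k A X).card : ℝ) := by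
  classical
  choose x0 hx0 using hA
  refine ⟨∑ i, x0 i + 1, fun X hX => ?_⟩
  have hX1 : 1 ≤ X := by omega
  have hx1 : (1 : ℝ) ≤ X := by exact_mod_cast hX1
  have hx0' : (0 : ℝ) < X := by linarith
  have hXi : ∀ i, x0 i ≤ X := fun i =>
    (Finset.single_le_sum (f := x0) (fun _ _ => Nat.zero_le _) (mem_univ i)).trans (by omega)
  unfold TB
  rw [Fintype.card_piFinset]
  push_cast
  have h1 : ∀ i : Fin k, (X : ℝ) ^ (1 - δ) ≤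
      ((((Finset.Icc (2 * ((i : ℕ) + 1) * X) ((2 * ((i : ℕ) + 1) + 1) * X)).filter (fun a => a ∈ A i)).card : ℕ) : ℝ) := by
    intro i
    have hik : (i : ℕ) + 1 ≤ k := i.2
    have hxx : X ≤ 2 * ((i : ℕ) + 1) * X := Nat.le_mul_of_pos_left _ (by omega)
    have h2 := hx0 i (2 * ((i : ℕ) + 1) * X) ((hXi i).trans hxx)
    have h3 : (X : ℝ) ^ (1 - δ) ≤ (((2 * ((i : ℕ) + 1) * X : ℕ)) : ℝ) ^ (1 - δ) := by
      apply Real.rpow_le_rpow hx0'.le _ (by linarith)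
      exact_mod_cast hxx
    refine h3.trans (h2.trans ?_)
    rw [← Set.ncard_coe_finset]
    refine Nat.cast_le.2 (Set.ncard_le_ncard ?_ (Finset.finite_toSet _))
    rintro a ⟨ha, ha1, ha2⟩
    rw [Finset.mem_coe, mem_filter, Finset.mem_Icc]
    refine ⟨⟨ha1.le, ?_⟩, ha⟩
    have h4 : 2 * k * a ≤ 2 * k * ((2 * ((i : ℕ) + 1) + 1) * X) := by
      calc 2 * k * a ≤ (2 * k + 1) * (2 * ((i : ℕ) + 1) * X) := ha2
        _ = 2 * k * (2 * ((i : ℕ) + 1) * X) + 2 * (((i : ℕ) + 1) * X) := by ring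
        _ ≤ 2 * k * (2 * ((i : ℕ) + 1) * X) + 2 * (k * X) :=
            Nat.add_le_add_left (Nat.mul_le_mul_left _ (Nat.mul_le_mul_right _ hik)) _
        _ = 2 * k * ((2 * ((i : ℕ) + 1) + 1) * X) := by ring
    exact Nat.le_of_mul_le_mul_left h4 (by omega)
  calc (X : ℝ) ^ ((k : ℝ) * (1 - δ)) = ∏ _i : Fin k, (X : ℝ) ^ (1 - δ) := by
        rw [prod_const, card_univ, Fintype.card_fin, ← Real.rpow_natCast, ← Real.rpow_mul hx0'.le]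
        congr 1; ring
    _ ≤ _ := prod_le_prod (fun _ _ => by positivity) (fun i _ => h1 i)

/-- from the weighted number to the number of solutions -/
lemma count3 {T T' : Finset (Fin (d + 1) → ℕ)} {M : ℕ} (N : ℤ) (B : ℝ) (hB : ∀ n, n < M → lam n ≤ B) :
    ∃ S : Finset ((Fin (d + 1) → ℕ) × (Fin (d + 1) → ℕ) × ℕ),
      (∀ z ∈ S, z.1 ∈ T ∧ z.2.1 ∈ T' ∧ z.2.2.Prime ∧ ∑ i, ⌊PP d c b θ (z.1 i)⌋ + ∑ i, ⌊PP d c b θ (z.2.1 i)⌋ +
        ⌊PP d c b θ z.2.2⌋ = N) ∧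
      R3 T T' (Finset.Ico 1 M) (vw d c b θ) (vw d c b θ) (fun _ => 1) (fun _ => 1) (aw d c b θ)
        (wwL d c b θ lam) N ≤ B * S.card := by
  classical
  refine ⟨(T ×ˢ T' ×ˢ Finset.Ico 1 M).filter (fun z => vw d c b θ z.1 + vw d c b θ z.2.1 + aw d c b θ z.2.2 = N ∧
    z.2.2.Prime), ?_, ?_⟩
  · intro z hz
    rw [mem_filter, mem_product, mem_product] at hz
    exact ⟨hz.1.1, hz.1.2.1, hz.2.2, hz.2.1⟩
  · rw [card_filter, sum_product]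
    push_cast
    rw [mul_sum]
    unfold R3
    apply sum_le_sum
    intro ω _
    rw [sum_product, mul_sum]
    apply sum_le_sum
    intro ω' _
    rw [mul_sum]
    apply sum_le_sum
    intro l hl
    have hlM := (Finset.mem_Ico.1 hl).2
    by_cases h1 : vw d c b θ ω + vw d c b θ ω' + aw d c b θ l = N
    · rw [if_pos h1]
      by_cases h2 : l.Prime
      · rw [if_pos ⟨h1, h2⟩]
        have := (wwL_le (c := c) (b := b) (θ := θ) lam_nonneg l).trans (hB l hlM)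
        linarith
      · rw [if_neg (fun h => h2 h.2)]
        have h3 : wwL d c b θ lam l = 0 := by
          unfold wwL lam
          rw [if_neg h2, zero_mul]
        rw [h3]
        simp
    · rw [if_neg h1, if_neg (fun h => h1 h.1)]
      simp

lemma count1 {T : Finset (Fin (d + 1) → ℕ)} {M : ℕ} (N : ℤ)
    (h : ¬ ∃ t ∈ T, ∃ p : ℕ, p.Prime ∧ ∑ i, ⌊PP d c b θ (t i)⌋ + ⌊PP d c b θ p⌋ = N) :
    R1 T (Finset.Ico 1 M) (vw d c b θ) (fun _ => 1) (aw d c b θ) (wwL d c b θ lam) N = 0 := by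
  unfold R1
  apply sum_eq_zero; intro ω hω
  apply sum_eq_zero; intro l hl
  by_cases hsum : vw d c b θ ω + aw d c b θ l = N
  · rw [if_pos hsum]
    by_contra hne
    apply h
    have h2 := right_ne_zero_of_mul hne
    unfold wwL at h2
    exact ⟨ω, hω, l, prime_of_lam_ne (left_ne_zero_of_mul h2), hsum⟩
  · rw [if_neg hsum]

/-- part one -/
theorem part1' {v C0 : ℕ} {κ σ : ℝ} {ν0 : ℕ} (hd : 1 ≤ d)
    (h : ∀ ν : ℕ, ν0 ≤ ν → Scale d c b θ v C0 κ σ (2 ^ ν)) :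
    ∃ ν1 : ℕ, ∀ ν : ℕ, ν1 ≤ ν → ∀ T T' : Finset (Fin (d + 1) → ℕ), T ⊆ Box (d + 1) (2 ^ ν) →
      T' ⊆ Box (d + 1) (2 ^ ν) →
      ((2 ^ ν : ℕ) : ℝ) ^ (2 * ((d : ℝ) + 1) - σ / 4) ≤ (T.card : ℝ) * T'.card →
      ∀ N : ℕ, (2 * v + 1) * (2 ^ ν) ^ (d + 1) ≤ N → N ≤ 2 ^ (d + 1) * ((2 * v + 1) * (2 ^ ν) ^ (d + 1)) →
      ∃ S : Finset ((Fin (d + 1) → ℕ) × (Fin (d + 1) → ℕ) × ℕ),
      (∀ z ∈ S, z.1 ∈ T ∧ z.2.1 ∈ T' ∧ z.2.2.Prime ∧ ∑ i, ⌊PP d c b θ (z.1 i)⌋ + ∑ i, ⌊PP d c b θ (z.2.1 i)⌋ +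
        ⌊PP d c b θ z.2.2⌋ = (N : ℤ)) ∧
      κ * (T.card * T'.card) / (((2 ^ ν : ℕ) : ℝ) ^ d * Real.log N) ≤ S.card := by
  refine ⟨ν0 + C0 + 2, fun ν hν T T' hT hT' hcard N hN1 hN2 => ?_⟩
  have hc := (h ν (by omega)).1 T T' hT hT' hcard N (by exact_mod_cast hN1) (by exact_mod_cast hN2)
  have hXν : ν < 2 ^ ν := Nat.lt_two_pow_self
  have hX : 1 ≤ 2 ^ ν := Nat.one_le_two_pow
  generalize hXX : 2 ^ ν = X at *
  have hXN : X * X ≤ N := by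
    calc X * X = X ^ 2 := by ring
      _ ≤ X ^ (d + 1) := Nat.pow_le_pow_right hX (by omega)
      _ ≤ (2 * v + 1) * X ^ (d + 1) := Nat.le_mul_of_pos_left _ (by omega)
      _ ≤ N := hN1
  have hC0N : C0 * X ≤ N := (Nat.mul_le_mul_right _ (by omega)).trans hXN
  have hN4 : 4 ≤ N := by
    have : 2 * 2 ≤ X * X := Nat.mul_le_mul (by omega) (by omega)
    omega
  have hlogN : 0 < Real.log N := Real.log_pos (by exact_mod_cast (by omega : 1 < N))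
  obtain ⟨S, hS, hScard⟩ := count3 (c := c) (b := b) (θ := θ) (T := T) (T' := T') (M := C0 * X) N (Real.log N)
    (fun n hn => lam_le_log (hn.le.trans hC0N))
  refine ⟨S, hS, ?_⟩
  have hx0 : (0 : ℝ) < X := by exact_mod_cast hX
  have h5 := hc.trans hScard
  rw [div_le_iff₀ (by positivity)] at h5 ⊢
  calc κ * (T.card * T'.card) ≤ Real.log N * S.card * (X : ℝ) ^ d := h5
    _ = _ := by ring

/-- all large integers -/
theorem part2' {v C0 : ℕ} {κ σ : ℝ} (hκ : 0 < κ) (hσ1 : σ ≤ 1) {ν0 : ℕ} (hd : 1 ≤ d)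
    (h : ∀ ν : ℕ, ν0 ≤ ν → Scale d c b θ v C0 κ σ (2 ^ ν)) (A A' : Fin (d + 1) → Set ℕ)
    (hA : ∀ i, Loc (d + 1) (σ / (8 * (d + 1))) (A i)) (hA' : ∀ i, Loc (d + 1) (σ / (8 * (d + 1))) (A' i)) :
    ∃ N0 : ℕ, ∀ N : ℕ, N0 ≤ N → ∃ (a a' : Fin (d + 1) → ℕ) (p : ℕ), (∀ i, a i ∈ A i) ∧ (∀ i, a' i ∈ A' i) ∧
      p.Prime ∧ ∑ i, ⌊PP d c b θ (a i)⌋ + ∑ i, ⌊PP d c b θ (a' i)⌋ + ⌊PP d c b θ p⌋ = (N : ℤ) := by
  obtain ⟨ν1, h1⟩ := part1' hd h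
  have hd1 : (1 : ℝ) ≤ (d : ℝ) + 1 := by
    have : (0 : ℝ) ≤ d := Nat.cast_nonneg d
    linarith
  have hδ1 : σ / (8 * ((d : ℝ) + 1)) ≤ 1 := by
    rw [div_le_one (by positivity)]
    linarith
  obtain ⟨X1, hX1⟩ := TB_card (d + 1) A _ hδ1 hA
  obtain ⟨X2, hX2⟩ := TB_card (d + 1) A' _ hδ1 hA'
  refine ⟨(2 * v + 1) * (2 ^ (ν1 + X1 + X2 + 1)) ^ (d + 1), fun N hN => ?_⟩
  obtain ⟨ν, hν, e1, e2⟩ := scale v (d + 1) (ν1 + X1 + X2 + 1) N (by omega) hN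
  have hXν : ν < 2 ^ ν := Nat.lt_two_pow_self
  have hc1 := hX1 (2 ^ ν) (by omega)
  have hc2 := hX2 (2 ^ ν) (by omega)
  have hx1 : (1 : ℝ) ≤ ((2 ^ ν : ℕ) : ℝ) := by exact_mod_cast Nat.one_le_two_pow
  have hx0 : (0 : ℝ) < ((2 ^ ν : ℕ) : ℝ) := by linarith
  have hcard : ((2 ^ ν : ℕ) : ℝ) ^ (2 * ((d : ℝ) + 1) - σ / 4) ≤
      ((TB (d + 1) A (2 ^ ν)).card : ℝ) * (TB (d + 1) A' (2 ^ ν)).card := by
    calc ((2 ^ ν : ℕ) : ℝ) ^ (2 * ((d : ℝ) + 1) - σ / 4) =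
        ((2 ^ ν : ℕ) : ℝ) ^ (((d + 1 : ℕ) : ℝ) * (1 - σ / (8 * ((d : ℝ) + 1)))) *
          ((2 ^ ν : ℕ) : ℝ) ^ (((d + 1 : ℕ) : ℝ) * (1 - σ / (8 * ((d : ℝ) + 1)))) := by
          rw [← Real.rpow_add hx0]
          congr 1
          push_cast
          field_simp
          ring
      _ ≤ _ := mul_le_mul hc1 hc2 (by positivity) (by positivity)
  obtain ⟨S, hS, hSc⟩ := h1 ν (by omega) _ _ (TB_sub _ A _) (TB_sub _ A' _) hcard N e1 e2.le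
  have hpos : 0 < (S.card : ℝ) := by
    refine lt_of_lt_of_le ?_ hSc
    have hT : 0 < ((TB (d + 1) A (2 ^ ν)).card : ℝ) * (TB (d + 1) A' (2 ^ ν)).card :=
      lt_of_lt_of_le (by positivity) hcard
    have hN2 : 1 < N := by
      have h2 : 2 ≤ 2 ^ ν := by
        calc 2 = 2 ^ 1 := by norm_num
          _ ≤ 2 ^ ν := Nat.pow_le_pow_right (by norm_num) (by omega)
      have h3 : 2 ^ ν ≤ (2 ^ ν) ^ (d + 1) := Nat.le_self_pow (by omega) _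
      have h4 : (2 ^ ν) ^ (d + 1) ≤ (2 * v + 1) * (2 ^ ν) ^ (d + 1) := Nat.le_mul_of_pos_left _ (by omega)
      omega
    have := Real.log_pos (show (1 : ℝ) < N by exact_mod_cast hN2)
    positivity
  obtain ⟨z, hz⟩ := card_pos.1 (by exact_mod_cast hpos)
  obtain ⟨z1, z2, z3, z4⟩ := hS z hz
  exact ⟨z.1, z.2.1, z.2.2, fun i => TB_mem z1 i, fun i => TB_mem z2 i, z3, z4⟩

end Pool.Agent.N732.Arb
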