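import Mathlib
import Pool.Agent.N732.ArbSets

/-! Metric Waring problem with variables in arbitrary sets: few exceptions. -/

set_option autoImplicit false

namespace Pool.Agent.N732.Arb

open Finset MeasureTheory Pool.Agent.N604.MW

/-- from the scales to all integers -/
theorem exceptional {k v : ℕ} {σ : ℝ} (hσ : 0 < σ) {ν0 : ℕ} (hk : 2 ≤ k) (Good : ℕ → Prop)
    (hcore : ∀ ν : ℕ, ν0 ≤ ν → ∀ S : Finset ℕ, (∀ m ∈ S, (2 * v + 1) * (2 ^ ν) ^ k ≤ m ∧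
      m ≤ 2 ^ k * ((2 * v + 1) * (2 ^ ν) ^ k) ∧ ¬ Good m) → (S.card : ℝ) ≤ ((2 ^ ν : ℕ) : ℝ) ^ ((k : ℝ) - σ)) :
    ∃ σ' : ℝ, 0 < σ' ∧ ∃ N0 : ℕ, ∀ N : ℕ, N0 ≤ N →
      (({m : ℕ | m ≤ N ∧ ¬ Good m}.ncard : ℕ) : ℝ) ≤ (N : ℝ) ^ (1 - σ') := by
  classical
  set σ1 : ℝ := min σ 1 with hσ1
  have hσ10 : 0 < σ1 := lt_min hσ one_pos
  have hk2 : (2 : ℝ) ≤ k := by exact_mod_cast hk
  have hk0 : (0 : ℝ) < k := by linarith
  set s : ℝ := σ1 / (4 * k) with hs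
  have hs0 : 0 < s := by positivity
  have hs8 : s ≤ 1 / 8 := by
    rw [hs, div_le_div_iff₀ (by positivity) (by norm_num)]
    have := min_le_right σ 1
    rw [← hσ1] at this
    nlinarith
  set M0 : ℕ := (2 * v + 1) * (2 ^ ν0) ^ k with hM0
  obtain ⟨N1, hN1⟩ := big (1 / 2) (2 * M0) (by norm_num)
  obtain ⟨N2, hN2⟩ := big s (2 * (2 / s + 1)) hs0
  refine ⟨2 * s, by linarith, N1 + N2 + 1, ?_⟩
  intro N hN
  have hNpos : 1 ≤ N := by omega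
  have hn1 : (1 : ℝ) ≤ N := by exact_mod_cast hNpos
  have hn0 : (0 : ℝ) < N := by linarith
  have g1 := hN1 N (by omega)
  have g2 := hN2 N (by omega)
  set K := Nat.log 2 N with hK
  let E : ℕ → Finset ℕ := fun ν => (Finset.range (N + 1)).filter (fun m =>
    (2 * v + 1) * (2 ^ ν) ^ k ≤ m ∧ m < 2 ^ k * ((2 * v + 1) * (2 ^ ν) ^ k) ∧ ¬ Good m)
  have hsub : {m : ℕ | m ≤ N ∧ ¬ Good m} ⊆
      ((Finset.range M0 ∪ (Finset.Icc ν0 K).biUnion E : Finset ℕ) : Set ℕ) := by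
    rintro m ⟨hm1, hm2⟩
    rw [Finset.mem_coe, mem_union, mem_biUnion]
    by_cases hm : m < M0
    · left; exact mem_range.mpr hm
    · right
      rw [not_lt] at hm
      obtain ⟨ν, hν, h1, h2⟩ := scale v k ν0 m (by omega) hm
      refine ⟨ν, ?_, ?_⟩
      · rw [Finset.mem_Icc]
        refine ⟨hν, ?_⟩
        rw [hK]
        apply Nat.le_log_of_pow_le (by norm_num)
        calc 2 ^ ν ≤ (2 ^ ν) ^ k := Nat.le_self_pow (by omega) _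
          _ ≤ (2 * v + 1) * (2 ^ ν) ^ k := Nat.le_mul_of_pos_left _ (by omega)
          _ ≤ N := h1.trans hm1
      · simp only [E, mem_filter, mem_range]
        exact ⟨by omega, h1, h2, hm2⟩
  have hcardE : ∀ ν ∈ Finset.Icc ν0 K, ((E ν).card : ℝ) ≤ (N : ℝ) ^ (1 - 4 * s) := by
    intro ν hν
    rw [Finset.mem_Icc] at hν
    by_cases hE : E ν = ∅
    · rw [hE, card_empty, Nat.cast_zero]; exact Real.rpow_nonneg hn0.le _
    have hX : 1 ≤ 2 ^ ν := Nat.one_le_two_pow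
    have h1 := hcore ν hν.1 (E ν) (by
      intro m hm
      simp only [E, mem_filter, mem_range] at hm
      exact ⟨hm.2.1, hm.2.2.1.le, hm.2.2.2⟩)
    refine h1.trans ?_
    obtain ⟨m, hm⟩ := Finset.nonempty_iff_ne_empty.mpr hE
    simp only [E, mem_filter, mem_range] at hm
    have h2 : (2 ^ ν) ^ k ≤ N := by
      calc (2 ^ ν) ^ k ≤ (2 * v + 1) * (2 ^ ν) ^ k := Nat.le_mul_of_pos_left _ (by omega)
        _ ≤ N := by omega
    generalize hXX : 2 ^ ν = X at *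
    have hx1 : (1 : ℝ) ≤ X := by exact_mod_cast hX
    have hx0 : (0 : ℝ) < X := by linarith
    have h3 : (X : ℝ) ^ (k : ℝ) ≤ N := by
      rw [Real.rpow_natCast]
      exact_mod_cast h2
    have h4 : 0 ≤ 1 - 4 * s := by linarith
    calc (X : ℝ) ^ ((k : ℝ) - σ) ≤ (X : ℝ) ^ ((k : ℝ) - σ1) := by
          apply Real.rpow_le_rpow_of_exponent_le hx1
          have := min_le_left σ 1
          linarith
      _ = ((X : ℝ) ^ (k : ℝ)) ^ (1 - 4 * s) := by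
          rw [← Real.rpow_mul hx0.le]
          congr 1
          rw [hs]; field_simp
      _ ≤ (N : ℝ) ^ (1 - 4 * s) := Real.rpow_le_rpow (Real.rpow_nonneg hx0.le _) h3 h4
  have hncard : (({m : ℕ | m ≤ N ∧ ¬ Good m}.ncard : ℕ) : ℝ) ≤
      (M0 : ℝ) + ((K : ℝ) + 1) * (N : ℝ) ^ (1 - 4 * s) := by
    have h1 : {m : ℕ | m ≤ N ∧ ¬ Good m}.ncard ≤
        (Finset.range M0 ∪ (Finset.Icc ν0 K).biUnion E).card := by
      rw [← Set.ncard_coe_finset]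
      exact Set.ncard_le_ncard hsub (Finset.finite_toSet _)
    have h2 : (Finset.range M0 ∪ (Finset.Icc ν0 K).biUnion E).card ≤ M0 + ∑ ν ∈ Finset.Icc ν0 K, (E ν).card := by
      refine (card_union_le _ _).trans ?_
      rw [card_range]
      exact Nat.add_le_add_left card_biUnion_le _
    have h3 : (({m : ℕ | m ≤ N ∧ ¬ Good m}.ncard : ℕ) : ℝ) ≤
        ((M0 + ∑ ν ∈ Finset.Icc ν0 K, (E ν).card : ℕ) : ℝ) := by exact_mod_cast h1.trans h2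
    refine h3.trans ?_
    push_cast
    have h4 : ∑ ν ∈ Finset.Icc ν0 K, ((E ν).card : ℝ) ≤ ((K : ℝ) + 1) * (N : ℝ) ^ (1 - 4 * s) := by
      calc ∑ ν ∈ Finset.Icc ν0 K, ((E ν).card : ℝ) ≤ ∑ _ν ∈ Finset.Icc ν0 K, (N : ℝ) ^ (1 - 4 * s) :=
            sum_le_sum hcardE
        _ = ((Finset.Icc ν0 K).card : ℝ) * (N : ℝ) ^ (1 - 4 * s) := by rw [sum_const, nsmul_eq_mul]
        _ ≤ ((K : ℝ) + 1) * (N : ℝ) ^ (1 - 4 * s) := by
            apply mul_le_mul_of_nonneg_right _ (Real.rpow_nonneg hn0.le _)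
            rw [Nat.card_Icc]
            have : K + 1 - ν0 ≤ K + 1 := Nat.sub_le _ _
            exact_mod_cast this
    linarith
  refine hncard.trans ?_
  have hKb : (K : ℝ) + 1 ≤ (2 / s + 1) * (N : ℝ) ^ s := by
    have h1 : (K : ℝ) ≤ Real.logb 2 N := by
      have := Real.natLog_le_logb N 2
      rw [hK]; exact_mod_cast this
    have h2 : Real.logb 2 N ≤ 2 * Real.log N := by
      rw [Real.logb, div_le_iff₀ (Real.log_pos (by norm_num))]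
      have h3 : (1 / 2 : ℝ) ≤ Real.log 2 := by
        have := Real.log_two_gt_d9
        linarith
      have h4 : 0 ≤ Real.log N := Real.log_nonneg hn1
      nlinarith
    have h3 : Real.log N ≤ (N : ℝ) ^ s / s := Real.log_le_rpow_div hn0.le hs0
    have h4 : (1 : ℝ) ≤ (N : ℝ) ^ s := Real.one_le_rpow hn1 hs0.le
    calc (K : ℝ) + 1 ≤ 2 * ((N : ℝ) ^ s / s) + (N : ℝ) ^ s := by linarith
      _ = (2 / s + 1) * (N : ℝ) ^ s := by ring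
  have t1 : (M0 : ℝ) ≤ (N : ℝ) ^ (1 - 2 * s) / 2 := by
    have : (N : ℝ) ^ (1 / 2 : ℝ) ≤ (N : ℝ) ^ (1 - 2 * s) :=
      Real.rpow_le_rpow_of_exponent_le hn1 (by linarith)
    linarith
  have t2 : ((K : ℝ) + 1) * (N : ℝ) ^ (1 - 4 * s) ≤ (N : ℝ) ^ (1 - 2 * s) / 2 := by
    have e1 : (N : ℝ) ^ (1 - 2 * s) = (N : ℝ) ^ s * ((N : ℝ) ^ s * (N : ℝ) ^ (1 - 4 * s)) := by
      rw [← Real.rpow_add hn0, ← Real.rpow_add hn0]; congr 1; ring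
    have hp : 0 < (N : ℝ) ^ s * (N : ℝ) ^ (1 - 4 * s) := mul_pos (Real.rpow_pos_of_pos hn0 _) (Real.rpow_pos_of_pos hn0 _)
    calc ((K : ℝ) + 1) * (N : ℝ) ^ (1 - 4 * s) ≤ ((2 / s + 1) * (N : ℝ) ^ s) * (N : ℝ) ^ (1 - 4 * s) := by gcongr
      _ = (2 * (2 / s + 1)) * ((N : ℝ) ^ s * (N : ℝ) ^ (1 - 4 * s)) / 2 := by ring
      _ ≤ (N : ℝ) ^ s * ((N : ℝ) ^ s * (N : ℝ) ^ (1 - 4 * s)) / 2 := by gcongr
      _ = (N : ℝ) ^ (1 - 2 * s) / 2 := by rw [e1]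
  linarith

variable {d : ℕ} {c b : ℝ} {θ : Fin d → ℝ}

/-- one scale -/
theorem exc_scale {v C0 : ℕ} {κ σ : ℝ} {X : ℕ} (h : Scale d c b θ v C0 κ σ X) (T : Finset (Fin (d + 1) → ℕ))
    (hT : T ⊆ Box (d + 1) X) (hcard : (X : ℝ) ^ (((d : ℝ) + 1) - σ / 8) ≤ (T.card : ℝ)) (S : Finset ℕ)
    (hS : ∀ m ∈ S, (2 * v + 1) * X ^ (d + 1) ≤ m ∧ m ≤ 2 ^ (d + 1) * ((2 * v + 1) * X ^ (d + 1)) ∧
      ¬ ∃ t ∈ T, ∃ p : ℕ, p.Prime ∧ ∑ i, ⌊PP d c b θ (t i)⌋ + ⌊PP d c b θ p⌋ = (m : ℤ)) :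
    (S.card : ℝ) ≤ (X : ℝ) ^ ((d : ℝ) + 1 - σ) := by
  have h1 := h.2 T hT hcard (S.map Nat.castEmbedding) (by
    intro M hM
    rw [mem_map] at hM
    obtain ⟨m, hm, rfl⟩ := hM
    obtain ⟨e1, e2, e3⟩ := hS m hm
    refine ⟨?_, ?_, ?_⟩
    · simp only [Nat.castEmbedding_apply]; exact_mod_cast e1
    · simp only [Nat.castEmbedding_apply]; exact_mod_cast e2
    · simp only [Nat.castEmbedding_apply]
      exact count1 (m : ℤ) e3)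
  rwa [card_map] at h1

/-- almost all integers -/
theorem part3' {v C0 : ℕ} {κ σ : ℝ} (hσ : 0 < σ) (hσ1 : σ ≤ 1) {ν0 : ℕ} (hd : 1 ≤ d)
    (h : ∀ ν : ℕ, ν0 ≤ ν → Scale d c b θ v C0 κ σ (2 ^ ν)) (A : Fin (d + 1) → Set ℕ)
    (hA : ∀ i, Loc (d + 1) (σ / (8 * (d + 1))) (A i)) :
    ∃ σ' : ℝ, 0 < σ' ∧ ∃ N0 : ℕ, ∀ N : ℕ, N0 ≤ N →
      (({m : ℕ | m ≤ N ∧ ¬ ∃ (a : Fin (d + 1) → ℕ) (p : ℕ), (∀ i, a i ∈ A i) ∧ p.Prime ∧
        ∑ i, ⌊PP d c b θ (a i)⌋ + ⌊PP d c b θ p⌋ = (m : ℤ)}.ncard : ℕ) : ℝ) ≤ (N : ℝ) ^ (1 - σ') := by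
  have hd1 : (1 : ℝ) ≤ (d : ℝ) + 1 := by
    have : (0 : ℝ) ≤ d := Nat.cast_nonneg d
    linarith
  have hδ1 : σ / (8 * ((d : ℝ) + 1)) ≤ 1 := by
    rw [div_le_one (by positivity)]
    linarith
  obtain ⟨X1, hX1⟩ := TB_card (d + 1) A _ hδ1 hA
  refine exceptional (k := d + 1) (v := v) (σ := σ) hσ (ν0 := ν0 + X1) (by omega) _ fun ν hν S hS => ?_
  have hXν : ν < 2 ^ ν := Nat.lt_two_pow_self
  have hc1 := hX1 (2 ^ ν) (by omega)
  have h1 := exc_scale (h ν (by omega)) (TB (d + 1) A (2 ^ ν)) (TB_sub _ A _) (by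
    refine le_trans (le_of_eq ?_) hc1
    congr 1
    push_cast
    field_simp) S (by
    intro m hm
    obtain ⟨e1, e2, e3⟩ := hS m hm
    refine ⟨e1, e2, ?_⟩
    rintro ⟨t, ht, p, hp, hs⟩
    exact e3 ⟨t, p, fun i => TB_mem ht i, hp, hs⟩)
  refine h1.trans (le_of_eq ?_)
  congr 1
  push_cast
  ring

end Pool.Agent.N732.Arb
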