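import Mathlib
import Pool.Agent.N732.ArbExc

/-! Generic diagonal forms with variables in arbitrary sets and two prime variables: one scale. -/

set_option autoImplicit false

namespace Pool.Agent.N732.ArbD

open Finset MeasureTheory Pool.Agent.N604.MW

lemma dmaj' : S_DMAJ := Pool.Agent.N565.PDM.dmaj pweyl_all Pool.Agent.N141.MWF.floor_series
lemma dexcl' : S_DEXCL := Pool.Agent.N701.PD.dexcl dmaj'
lemma dlow' : S_DLOW := Pool.Agent.N539.PD.dlow pweyl_all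
lemma dmass' : S_DMASS := Pool.Agent.N539.PD.dmass pweyl_all

/-- the energy of a subset of the box -/
lemma EnT_le {k X : ℕ} {α : Fin k → ℝ} {T : Finset (Fin k → ℕ)} (hT : T ⊆ DBox k X) :
    En T (dv k α) (fun _ => 1) ≤ ((DPairs k α X).card : ℝ) := by
  classical
  have h1 : En T (dv k α) (fun _ => 1) =
      (((T ×ˢ T).filter (fun p => dv k α p.1 = dv k α p.2)).card : ℝ) := by
    unfold En
    rw [← sum_product' T T (fun ω ω' => if dv k α ω = dv k α ω' then (1 : ℝ) * 1 else 0),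
      card_filter]
    push_cast
    apply sum_congr rfl
    intro p _
    simp
  rw [h1]
  refine Nat.cast_le.2 (card_le_card fun p hp => ?_)
  rw [mem_filter, mem_product] at hp
  unfold DPairs
  rw [mem_filter, mem_product]
  exact ⟨⟨hT hp.1.1, hT hp.1.2⟩, dclose hp.2⟩

/-- values and weights of the pairs of primes -/
noncomputable def va (k : ℕ) (a a' : ℝ) (z : ℕ × ℕ) : ℤ := da k a z.1 + da k a' z.2
noncomputable def wa (k : ℕ) (a a' : ℝ) (z : ℕ × ℕ) : ℝ := dw k a z.1 * dw k a' z.2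

lemma wa_nonneg (k : ℕ) (a a' : ℝ) (z : ℕ × ℕ) : 0 ≤ wa k a a' z := mul_nonneg (dw_nonneg _ _ _) (dw_nonneg _ _ _)

/-- the two conclusions at one scale -/
def ScaleD (k : ℕ) (α α' : Fin k → ℝ) (a a' : ℝ) (v C0 : ℕ) (κ σ : ℝ) (X : ℕ) : Prop :=
  (∀ T T' : Finset (Fin k → ℕ), T ⊆ DBox k X → T' ⊆ DBox k X →
    (X : ℝ) ^ (2 * (k : ℝ) - σ / 4) ≤ (T.card : ℝ) * T'.card →
    ∀ N : ℤ, (2 * v + 1) * (X : ℤ) ^ k ≤ N → N ≤ 2 ^ k * ((2 * v + 1) * (X : ℤ) ^ k) →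
      κ * (T.card * T'.card) * (X : ℝ) ^ (2 - (k : ℝ)) ≤ R3 T T' (Finset.Ico 1 (C0 * X) ×ˢ Finset.Icc X (2 * X))
        (dv k α) (dv k α') (fun _ => 1) (fun _ => 1) (va k a a') (wa k a a') N) ∧
  (∀ T : Finset (Fin k → ℕ), T ⊆ DBox k X → (X : ℝ) ^ ((k : ℝ) - σ / 8) ≤ (T.card : ℝ) →
    ∀ S : Finset ℤ, (∀ N ∈ S, (2 * v + 1) * (X : ℤ) ^ k ≤ N ∧ N ≤ 2 ^ k * ((2 * v + 1) * (X : ℤ) ^ k) ∧
      R1 T (Finset.Ico 1 (C0 * X) ×ˢ Finset.Icc X (2 * X)) (dv k α) (fun _ => 1) (va k a a') (wa k a a') N = 0) →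
    (S.card : ℝ) ≤ (X : ℝ) ^ ((k : ℝ) - σ))

lemma ScaleD.mono {k : ℕ} {α α' : Fin k → ℝ} {a a' : ℝ} {v C0 : ℕ} {κ σ σ' : ℝ} {X : ℕ} (hσ : σ' ≤ σ) (hX : 1 ≤ X)
    (h : ScaleD k α α' a a' v C0 κ σ X) : ScaleD k α α' a a' v C0 κ σ' X := by
  have hx1 : (1 : ℝ) ≤ X := by exact_mod_cast hX
  refine ⟨fun T T' hT hT' hcard => h.1 T T' hT hT' (le_trans ?_ hcard), fun T hT hcard S hS =>
    (h.2 T hT (le_trans ?_ hcard) S hS).trans ?_⟩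
  all_goals
    apply Real.rpow_le_rpow_of_exponent_le hx1
    linarith

theorem scaleD_core {k : ℕ} (hk : 2 ≤ k) (α α' : Fin k → ℝ) (a a' : ℝ) (hα : ∀ i, 0 < α i) (hα' : ∀ i, 0 < α' i)
    (ha : 0 < a) (ha' : 0 < a') (d1 : Dio1 a) (d1' : Dio1 a') (d2 : Dio2 a a') (hM : DMeanP k α) (hM' : DMeanP k α') :
    ∃ v C0 : ℕ, ∃ κ σ : ℝ, 0 < κ ∧ 0 < σ ∧ ∃ ν0 : ℕ, ∀ ν : ℕ, ν0 ≤ ν →
      ScaleD k α α' a a' v C0 κ σ (2 ^ ν) := by
  obtain ⟨v1, hv1⟩ := dsize α hα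
  obtain ⟨v2, hv2⟩ := dsize α' hα'
  set v3 : ℕ := ⌈a' * 2 ^ k⌉₊ with hv3
  set v : ℕ := v1 + v2 + v3 with hvdef
  obtain ⟨κm, hκm, Xm, hmass⟩ := dmass' k a' hk ha' d1'
  obtain ⟨C0, κL, σL, hκL, hσL, Xc, hlow⟩ := dlow' k a hk ha d1 (2 ^ k * (2 * v + 1)) (by
    have h1 : (1 : ℝ) ≤ 2 ^ k := one_le_pow₀ (by norm_num)
    have h2 : (1 : ℝ) ≤ 2 * (v : ℝ) + 1 := by
      have : (0 : ℝ) ≤ v := Nat.cast_nonneg v
      linarith
    calc (1 : ℝ) = 1 * 1 := by ring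
      _ ≤ _ := mul_le_mul h1 h2 (by norm_num) (by linarith))
  set κ0 : ℝ := κm * κL with hκ0
  have hκ00 : 0 < κ0 := mul_pos hκm hκL
  set δ : ℝ := min σL 1 / 4 with hδ
  have hm0 : 0 < min σL 1 := lt_min hσL one_pos
  have hδ0 : 0 < δ := by rw [hδ]; linarith
  have hδσ : 3 * δ ≤ σL := by
    have := min_le_left σL 1
    rw [hδ]; linarith
  set D0 : ℕ := C0 + 3 with hD0
  obtain ⟨σe, hσe, -, Xd, hex⟩ := dexcl' k a a' D0 δ hk ha ha' d2 hδ0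
  set ε : ℝ := min (δ / 4) (σe / 4) with hε
  have hε0 : 0 < ε := lt_min (by linarith) (by linarith)
  have hε1 : ε ≤ δ / 4 := min_le_left _ _
  have hε2 : ε ≤ σe / 4 := min_le_right _ _
  set σ : ℝ := σe / 2 with hσdef
  have hσ : 0 < σ := by linarith
  obtain ⟨Xe, hbd⟩ := lam_bound (C0 + 2) ε hε0
  obtain ⟨νe, hmean⟩ := hM (σ / 2) (by linarith)
  obtain ⟨νe', hmean'⟩ := hM' (σ / 2) (by linarith)
  obtain ⟨X1, h1⟩ := big (3 * δ) 2 (by linarith)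
  obtain ⟨X2, h2⟩ := big (δ / 2) (64 * (C0 * 2) / κ0) (by linarith)
  obtain ⟨X3, h3⟩ := big (σ / 4) (8 / κ0) (by linarith)
  obtain ⟨X4, h4⟩ := big (σ / 4) (4 * (2 / κ0) ^ 2) (by linarith)
  obtain ⟨X5, h5⟩ := big (σe / 4) D0 (by linarith)
  refine ⟨v, C0, κ0 / 4, σ, by positivity, hσ,
    Xm + Xc + Xd + Xe + νe + νe' + X1 + X2 + X3 + X4 + X5 + 1, ?_⟩
  intro ν hν
  have hXν : ν < 2 ^ ν := Nat.lt_two_pow_self
  replace hmean := hmean ν (by omega)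
  replace hmean' := hmean' ν (by omega)
  have hcast : ((2 : ℝ) ^ ν) = ((2 ^ ν : ℕ) : ℝ) := by push_cast; ring
  rw [hcast] at hmean hmean'
  generalize hX : 2 ^ ν = X at hmean hmean' hXν
  have hXm : Xm ≤ X := by omega
  have hXc : Xc ≤ X := by omega
  have hXd : Xd ≤ X := by omega
  replace hbd := hbd X (by omega)
  replace h1 := h1 X (by omega)
  replace h2 := h2 X (by omega)
  replace h3 := h3 X (by omega)
  replace h4 := h4 X (by omega)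
  replace h5 := h5 X (by omega)
  have hX1 : 1 ≤ X := by omega
  have hx1 : (1 : ℝ) ≤ X := by exact_mod_cast hX1
  have hx0 : (0 : ℝ) < X := by linarith
  clear hν
  -- the window
  set W : ℕ := ⌈(X : ℝ) ^ ((k : ℝ) - 3 * δ)⌉₊ with hW
  have hWlo : (X : ℝ) ^ ((k : ℝ) - 3 * δ) ≤ W := Nat.le_ceil _
  have hWpos : (0 : ℝ) < (X : ℝ) ^ ((k : ℝ) - 3 * δ) := Real.rpow_pos_of_pos hx0 _
  have hk2 : (2 : ℝ) ≤ k := by exact_mod_cast hk
  have hexp0 : 0 ≤ (k : ℝ) - 3 * δ := by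
    have e1 : δ ≤ 1 / 4 := by
      have := min_le_right σL 1
      rw [hδ]; linarith
    linarith
  have hW1' : (1 : ℝ) ≤ (X : ℝ) ^ ((k : ℝ) - 3 * δ) := Real.one_le_rpow hx1 hexp0
  have hWhi : (W : ℝ) ≤ 2 * (X : ℝ) ^ ((k : ℝ) - 3 * δ) := by
    have := Nat.ceil_lt_add_one hWpos.le
    rw [← hW] at this
    linarith
  have hW1 : 1 ≤ W := by
    have : (1 : ℝ) ≤ W := hW1'.trans hWlo
    exact_mod_cast this
  have hW0 : (0 : ℝ) < W := by exact_mod_cast hW1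
  have hxk : (X : ℝ) ^ (k : ℝ) = (X : ℝ) ^ k := Real.rpow_natCast _ _
  have hWX : (W : ℝ) ≤ (X : ℝ) ^ k := by
    calc (W : ℝ) ≤ 2 * (X : ℝ) ^ ((k : ℝ) - 3 * δ) := hWhi
      _ ≤ (X : ℝ) ^ (3 * δ) * (X : ℝ) ^ ((k : ℝ) - 3 * δ) := by gcongr
      _ = (X : ℝ) ^ k := by
          rw [← Real.rpow_add hx0, ← hxk]; congr 1; ring
  have hWL : (X : ℝ) ^ ((k : ℝ) - σL) ≤ W := by
    refine le_trans ?_ hWlo
    apply Real.rpow_le_rpow_of_exponent_le hx1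
    linarith
  -- names
  set L1 := Finset.Ico 1 (C0 * X) with hL1
  set L2 := Finset.Icc X (2 * X) with hL2
  set Y : ℝ := (X : ℝ) ^ (2 - (k : ℝ)) with hY
  have hY0 : 0 < Y := Real.rpow_pos_of_pos hx0 _
  have hXk0 : (0 : ℤ) ≤ (X : ℤ) ^ k := by positivity
  have hvT : ∀ T : Finset (Fin k → ℕ), T ⊆ DBox k X → ∀ ω ∈ T, 0 ≤ dv k α ω ∧ dv k α ω ≤ (v1 + v2 : ℕ) * (X : ℤ) ^ k := by
    intro T hT ω hω
    refine ⟨(hv1 X ω (hT hω)).1, (hv1 X ω (hT hω)).2.trans ?_⟩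
    apply mul_le_mul_of_nonneg_right _ hXk0
    exact_mod_cast (by omega : v1 ≤ v1 + v2)
  have hvT' : ∀ T : Finset (Fin k → ℕ), T ⊆ DBox k X → ∀ ω ∈ T, 0 ≤ dv k α' ω ∧ dv k α' ω ≤ (v1 + v2 : ℕ) * (X : ℤ) ^ k := by
    intro T hT ω hω
    refine ⟨(hv2 X ω (hT hω)).1, (hv2 X ω (hT hω)).2.trans ?_⟩
    apply mul_le_mul_of_nonneg_right _ hXk0
    exact_mod_cast (by omega : v2 ≤ v1 + v2)
  have hXε : 0 ≤ (X : ℝ) ^ ε := Real.rpow_nonneg hx0.le _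
  have hs1 : ∑ l ∈ L1, dw k a l ≤ C0 * X * (X : ℝ) ^ ε := by
    calc ∑ l ∈ L1, dw k a l ≤ ∑ _l ∈ L1, (X : ℝ) ^ ε := by
          apply sum_le_sum; intro l hl
          refine (dw_le k a l).trans (hbd l ?_)
          have := (Finset.mem_Ico.mp hl).2
          calc l ≤ C0 * X := this.le
            _ ≤ (C0 + 2) * X := Nat.mul_le_mul_right _ (by omega)
      _ = (L1.card : ℝ) * (X : ℝ) ^ ε := by simp
      _ ≤ C0 * X * (X : ℝ) ^ ε := by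
        apply mul_le_mul_of_nonneg_right _ hXε
        rw [hL1, Nat.card_Ico]
        have : C0 * X - 1 ≤ C0 * X := Nat.sub_le _ _
        exact_mod_cast this
  have hs2 : ∑ l ∈ L2, dw k a' l ≤ 2 * X * (X : ℝ) ^ ε := by
    calc ∑ l ∈ L2, dw k a' l ≤ ∑ _l ∈ L2, (X : ℝ) ^ ε := by
          apply sum_le_sum; intro l hl
          refine (dw_le k a' l).trans (hbd l ?_)
          have := (Finset.mem_Icc.mp hl).2
          calc l ≤ 2 * X := this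
            _ ≤ (C0 + 2) * X := Nat.mul_le_mul_right _ (by omega)
      _ = (L2.card : ℝ) * (X : ℝ) ^ ε := by simp
      _ ≤ 2 * X * (X : ℝ) ^ ε := by
        apply mul_le_mul_of_nonneg_right _ hXε
        rw [hL2, Nat.card_Icc]
        have : 2 * X + 1 - X ≤ 2 * X := by omega
        exact_mod_cast this
  have hs10 : 0 ≤ ∑ l ∈ L1, dw k a l := sum_nonneg fun l _ => dw_nonneg _ _ l
  have hs20 : 0 ≤ ∑ l ∈ L2, dw k a' l := sum_nonneg fun l _ => dw_nonneg _ _ l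
  have hwprod : ∑ z ∈ L1 ×ˢ L2, wa k a a' z = (∑ l ∈ L1, dw k a l) * ∑ l ∈ L2, dw k a' l := by
    rw [sum_product, sum_mul_sum]
    rfl
  have hwsum : ∑ z ∈ L1 ×ˢ L2, wa k a a' z ≤ (C0 * 2) * (X : ℝ) ^ (2 + 2 * ε) := by
    rw [hwprod]
    calc (∑ l ∈ L1, dw k a l) * ∑ l ∈ L2, dw k a' l ≤ (C0 * X * (X : ℝ) ^ ε) * (2 * X * (X : ℝ) ^ ε) :=
          mul_le_mul hs1 hs2 hs20 (by positivity)
      _ = (C0 * 2) * ((X : ℝ) ^ (2 : ℝ) * ((X : ℝ) ^ ε * (X : ℝ) ^ ε)) := by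
          rw [Real.rpow_two]; ring
      _ = (C0 * 2) * (X : ℝ) ^ (2 + 2 * ε) := by
          rw [← Real.rpow_add hx0, ← Real.rpow_add hx0]; congr 2; ring
  have hwsum0 : 0 ≤ ∑ z ∈ L1 ×ˢ L2, wa k a a' z := sum_nonneg fun z _ => wa_nonneg _ _ _ z
  -- the size of the second prime variable
  have hda : ∀ l ∈ L2, 0 ≤ da k a' l ∧ da k a' l ≤ v3 * (X : ℤ) ^ k := by
    intro l hl
    unfold da
    refine ⟨Int.floor_nonneg.mpr (mul_nonneg ha'.le (by positivity)), ?_⟩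
    have h1 : ((⌊a' * (l : ℝ) ^ k⌋ : ℤ) : ℝ) ≤ (v3 : ℝ) * (X : ℝ) ^ k := by
      have h2 : (l : ℝ) ≤ 2 * X := by exact_mod_cast (Finset.mem_Icc.1 hl).2
      calc ((⌊a' * (l : ℝ) ^ k⌋ : ℤ) : ℝ) ≤ a' * (l : ℝ) ^ k := Int.floor_le _
        _ ≤ a' * (2 * (X : ℝ)) ^ k := by gcongr
        _ = (a' * 2 ^ k) * (X : ℝ) ^ k := by rw [mul_pow]; ring
        _ ≤ _ := by
            apply mul_le_mul_of_nonneg_right (Nat.le_ceil _) (by positivity)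
    exact_mod_cast h1
  -- the window lower bound
  have hq : ∀ M : ℤ, (1 + v3) * (X : ℤ) ^ k ≤ M → M ≤ 2 ^ k * ((2 * v + 1) * (X : ℤ) ^ k) →
      κ0 * W * Y ≤ ∑ z ∈ (L1 ×ˢ L2).filter (fun z => M ≤ va k a a' z ∧ va k a a' z < M + W), wa k a a' z := by
    intro M hM1 hM2
    have e0 : ∀ l' ∈ L2, κL * W / (X : ℝ) ^ (k - 1) ≤
        ∑ l ∈ L1.filter (fun l => M - da k a' l' ≤ da k a l ∧ da k a l < M - da k a' l' + W), dw k a l := by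
      intro l' hl'
      obtain ⟨g1, g2⟩ := hda l' hl'
      have f1 : (X : ℤ) ^ k ≤ M - da k a' l' := by
        have : (1 + v3) * (X : ℤ) ^ k = (X : ℤ) ^ k + v3 * (X : ℤ) ^ k := by ring
        linarith
      have f2 : M - da k a' l' ≤ 2 ^ k * ((2 * v + 1) * (X : ℤ) ^ k) := by linarith
      have e1 : ((X : ℝ)) ^ k ≤ ((M - da k a' l' : ℤ) : ℝ) := by exact_mod_cast f1
      have e2 : ((M - da k a' l' : ℤ) : ℝ) ≤ 2 ^ k * (2 * v + 1) * (X : ℝ) ^ k := by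
        have : ((M - da k a' l' : ℤ) : ℝ) ≤ ((2 ^ k * ((2 * v + 1) * (X : ℤ) ^ k) : ℤ) : ℝ) := by exact_mod_cast f2
        refine this.trans (le_of_eq ?_)
        push_cast
        ring
      have e3 := hlow X W (M - da k a' l') hXc e1 e2 hWL hWX
      refine e3.trans (le_of_eq ?_)
      apply sum_congr _ (fun _ _ => rfl)
      ext l
      rw [mem_filter, mem_filter, mem_range, hL1, Finset.mem_Ico]
      constructor
      · rintro ⟨h1, h2, h3, h4⟩; exact ⟨⟨h2, h1⟩, h3, h4⟩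
      · rintro ⟨⟨h2, h1⟩, h3, h4⟩; exact ⟨h1, h2, h3, h4⟩
    have e4 : ∑ z ∈ (L1 ×ˢ L2).filter (fun z => M ≤ va k a a' z ∧ va k a a' z < M + W), wa k a a' z =
        ∑ l' ∈ L2, dw k a' l' * ∑ l ∈ L1.filter
          (fun l => M - da k a' l' ≤ da k a l ∧ da k a l < M - da k a' l' + W), dw k a l := by
      rw [sum_filter, sum_product_right]
      apply sum_congr rfl; intro l' _
      rw [mul_sum, sum_filter]
      apply sum_congr rfl; intro l _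
      unfold va wa
      by_cases h : M - da k a' l' ≤ da k a l ∧ da k a l < M - da k a' l' + W
      · rw [if_pos h, if_pos]
        · ring
        · constructor <;> linarith [h.1, h.2]
      · rw [if_neg h, if_neg]
        intro hc
        apply h
        constructor <;> linarith [hc.1, hc.2]
    rw [e4]
    have e5 : κm * X ≤ ∑ l' ∈ L2, dw k a' l' := hmass X hXm
    have e6 : (X : ℝ) / (X : ℝ) ^ (k - 1) = Y := by
      rw [hY, ← Real.rpow_natCast (X : ℝ) (k - 1)]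
      nth_rewrite 1 [← Real.rpow_one (X : ℝ)]
      rw [← Real.rpow_sub hx0]
      congr 1
      rw [Nat.cast_sub (by omega)]
      push_cast
      ring
    calc κ0 * W * Y = (κm * X) * (κL * W / (X : ℝ) ^ (k - 1)) := by rw [hκ0, ← e6]; ring
      _ ≤ (∑ l' ∈ L2, dw k a' l') * (κL * W / (X : ℝ) ^ (k - 1)) := by gcongr
      _ = ∑ l' ∈ L2, dw k a' l' * (κL * W / (X : ℝ) ^ (k - 1)) := sum_mul _ _ _
      _ ≤ _ := sum_le_sum fun l' hl' => mul_le_mul_of_nonneg_left (e0 l' hl') (dw_nonneg _ _ _)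
  -- minor arcs
  set τ : ℝ := (X : ℝ) ^ (2 - σ) with hτ
  set η : ℝ := (X : ℝ) ^ (-(k : ℝ) + δ) with hη
  have hτ0 : 0 ≤ τ := Real.rpow_nonneg hx0.le _
  have hη0 : 0 ≤ η := Real.rpow_nonneg hx0.le _
  have hTT1 : ∀ β : ℝ, ∑ l ∈ L1, ((dw k a l : ℝ) : ℂ) * e (β * da k a l) = TT k a 1 (C0 * X - 1) β := by
    intro β
    rw [hL1, Finset.sum_Ico_eq_sum_range]
    rfl
  have hTT2 : ∀ β : ℝ, ∑ l ∈ L2, ((dw k a' l : ℝ) : ℂ) * e (β * da k a' l) = TT k a' X (X + 1) β := by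
    intro β
    have e1 : L2 = Finset.Ico X (2 * X + 1) := by
      rw [hL2]; ext x; simp only [Finset.mem_Icc, Finset.mem_Ico]; omega
    rw [e1, Finset.sum_Ico_eq_sum_range, show 2 * X + 1 - X = X + 1 by omega]
    rfl
  have hnorm : ∀ (k : ℕ) (a β : ℝ) (L : Finset ℕ), ‖∑ l ∈ L, ((dw k a l : ℝ) : ℂ) * e (β * da k a l)‖ ≤ ∑ l ∈ L, dw k a l := by
    intro k a β L
    refine (norm_sum_le _ _).trans (sum_le_sum fun l _ => ?_)
    rw [norm_mul, Complex.norm_real, Real.norm_of_nonneg (dw_nonneg _ _ _)]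
    have : ‖e (β * da k a l)‖ = 1 := by
      unfold e
      rw [show (2 * (Real.pi : ℂ) * ((β * da k a l : ℝ) : ℂ) * Complex.I) =
        ((2 * Real.pi * (β * da k a l) : ℝ) : ℂ) * Complex.I by push_cast; ring]
      exact Complex.norm_exp_ofReal_mul_I _
    rw [this, mul_one]
  have hD0' : (X : ℝ) ^ (1 - σe) * (D0 * X * (X : ℝ) ^ ε) ≤ τ := by
    calc (X : ℝ) ^ (1 - σe) * (D0 * X * (X : ℝ) ^ ε) = D0 * ((X : ℝ) ^ (1 - σe) * (X : ℝ) ^ (1 : ℝ) * (X : ℝ) ^ ε) := by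
          rw [Real.rpow_one]; ring
      _ = D0 * (X : ℝ) ^ (2 - σe + ε) := by
          rw [← Real.rpow_add hx0, ← Real.rpow_add hx0]; congr 2; ring
      _ ≤ (X : ℝ) ^ (σe / 4) * (X : ℝ) ^ (2 - σe + ε) := by gcongr
      _ = (X : ℝ) ^ (2 - 3 * σe / 4 + ε) := by rw [← Real.rpow_add hx0]; congr 1; ring
      _ ≤ τ := by
          rw [hτ]
          apply Real.rpow_le_rpow_of_exponent_le hx1
          rw [hσdef]
          linarith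
  have hminor : ∀ β : ℝ, η ≤ |β| → |β| ≤ 1 / 2 → ‖∑ z ∈ L1 ×ˢ L2, ((wa k a a' z : ℝ) : ℂ) * e (β * va k a a' z)‖ ≤ τ := by
    intro β hβ1 hβ2
    have e1 : ∑ z ∈ L1 ×ˢ L2, ((wa k a a' z : ℝ) : ℂ) * e (β * va k a a' z) =
        (∑ l ∈ L1, ((dw k a l : ℝ) : ℂ) * e (β * da k a l)) * ∑ l ∈ L2, ((dw k a' l : ℝ) : ℂ) * e (β * da k a' l) := by
      rw [sum_product, sum_mul_sum]
      apply sum_congr rfl; intro l _
      apply sum_congr rfl; intro l' _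
      unfold wa va
      have : (β * ((da k a l + da k a' l' : ℤ) : ℝ)) = β * da k a l + β * da k a' l' := by push_cast; ring
      rw [this, e_add']
      push_cast
      ring
    rw [e1, norm_mul]
    by_cases hC0 : C0 * X = 0
    · have : L1 = ∅ := by rw [hL1, hC0]; rfl
      rw [this, sum_empty, norm_zero, zero_mul]; exact hτ0
    have hpos : 1 ≤ C0 * X := Nat.one_le_iff_ne_zero.mpr hC0
    have hA : 1 + (C0 * X - 1) ≤ D0 * X := by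
      rw [hD0, add_mul]; omega
    have hB : X + (X + 1) ≤ D0 * X := by
      rw [hD0, add_mul]; omega
    have hC0D0 : (C0 : ℝ) ≤ D0 := by exact_mod_cast (by omega : C0 ≤ D0)
    have h2D0 : (2 : ℝ) ≤ D0 := by exact_mod_cast (by omega : 2 ≤ D0)
    rcases hex X 1 (C0 * X - 1) X (X + 1) hXd hA hB β hβ1 hβ2 with h | h
    · calc ‖∑ l ∈ L1, ((dw k a l : ℝ) : ℂ) * e (β * da k a l)‖ * ‖∑ l ∈ L2, ((dw k a' l : ℝ) : ℂ) * e (β * da k a' l)‖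
          ≤ (X : ℝ) ^ (1 - σe) * (2 * X * (X : ℝ) ^ ε) := by
            apply mul_le_mul _ ((hnorm k a' β L2).trans hs2) (norm_nonneg _) (Real.rpow_nonneg hx0.le _)
            rw [hTT1]; exact h
        _ ≤ (X : ℝ) ^ (1 - σe) * (D0 * X * (X : ℝ) ^ ε) := by gcongr
        _ ≤ τ := hD0'
    · calc ‖∑ l ∈ L1, ((dw k a l : ℝ) : ℂ) * e (β * da k a l)‖ * ‖∑ l ∈ L2, ((dw k a' l : ℝ) : ℂ) * e (β * da k a' l)‖
          ≤ (C0 * X * (X : ℝ) ^ ε) * (X : ℝ) ^ (1 - σe) := by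
            apply mul_le_mul ((hnorm k a β L1).trans hs1) _ (norm_nonneg _) (by positivity)
            rw [hTT2]; exact h
        _ = (X : ℝ) ^ (1 - σe) * (C0 * X * (X : ℝ) ^ ε) := by ring
        _ ≤ (X : ℝ) ^ (1 - σe) * (D0 * X * (X : ℝ) ^ ε) := by gcongr
        _ ≤ τ := hD0'
  have hEn : ∀ T : Finset (Fin k → ℕ), T ⊆ DBox k X →
      En T (dv k α) (fun _ => 1) ≤ (X : ℝ) ^ ((k : ℝ) + σ / 2) := fun T hT =>
    (EnT_le hT).trans (by rw [← hX] at hmean ⊢; exact hmean)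
  have hEn' : ∀ T : Finset (Fin k → ℕ), T ⊆ DBox k X →
      En T (dv k α') (fun _ => 1) ≤ (X : ℝ) ^ ((k : ℝ) + σ / 2) := fun T hT =>
    (EnT_le hT).trans (by rw [← hX] at hmean' ⊢; exact hmean')
  -- the major arc error
  have hmaj : 16 * W * η ^ 2 * (∑ z ∈ L1 ×ˢ L2, wa k a a' z) ≤ κ0 / 2 * Y := by
    have e1 : (X : ℝ) ^ ((k : ℝ) - 3 * δ) * η ^ 2 * (X : ℝ) ^ (2 + 2 * ε) = (X : ℝ) ^ (-δ + 2 * ε) * Y := by
      rw [hη, sq, hY, ← Real.rpow_add hx0, ← Real.rpow_add hx0, ← Real.rpow_add hx0, ← Real.rpow_add hx0]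
      congr 1; ring
    have e2 : (X : ℝ) ^ (-δ + 2 * ε) * (64 * (C0 * 2)) ≤ κ0 := by
      have e3 : (X : ℝ) ^ (-δ + 2 * ε) ≤ (X : ℝ) ^ (-(δ / 2)) :=
        Real.rpow_le_rpow_of_exponent_le hx1 (by linarith)
      have e4 : (X : ℝ) ^ (-(δ / 2)) * (64 * (C0 * 2)) ≤ κ0 := by
        rw [Real.rpow_neg hx0.le, inv_mul_le_iff₀ (Real.rpow_pos_of_pos hx0 _)]
        rw [div_le_iff₀ hκ00] at h2
        exact h2
      refine le_trans ?_ e4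
      gcongr
    calc 16 * W * η ^ 2 * (∑ z ∈ L1 ×ˢ L2, wa k a a' z)
        ≤ 16 * (2 * (X : ℝ) ^ ((k : ℝ) - 3 * δ)) * η ^ 2 * ((C0 * 2) * (X : ℝ) ^ (2 + 2 * ε)) := by gcongr
      _ = 32 * (C0 * 2) * ((X : ℝ) ^ ((k : ℝ) - 3 * δ) * η ^ 2 * (X : ℝ) ^ (2 + 2 * ε)) := by ring
      _ = ((X : ℝ) ^ (-δ + 2 * ε) * (64 * (C0 * 2))) / 2 * Y := by rw [e1]; ring
      _ ≤ κ0 / 2 * Y := by gcongr
  have hNlo : ∀ N : ℤ, (2 * v + 1) * (X : ℤ) ^ k ≤ N → (1 + v3) * (X : ℤ) ^ k + 2 * ((v1 + v2 : ℕ) * (X : ℤ) ^ k) ≤ N := by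
    intro N hN
    have h1 : (1 + v3) * (X : ℤ) ^ k + 2 * ((v1 + v2 : ℕ) * (X : ℤ) ^ k) = (1 + v3 + 2 * (v1 + v2 : ℕ)) * (X : ℤ) ^ k := by ring
    have h2 : ((1 + v3 + 2 * (v1 + v2 : ℕ) : ℤ)) ≤ 2 * v + 1 := by
      rw [hvdef]; push_cast; linarith [Int.natCast_nonneg v3]
    rw [h1]
    exact (mul_le_mul_of_nonneg_right h2 hXk0).trans hN
  refine ⟨?_, ?_⟩
  · intro T T' hT hT' hcard N hN1 hN2
    have hc2 := Pool.Agent.N712.PD.dcirc2 (Fin k → ℕ) (ℕ × ℕ) T T' (L1 ×ˢ L2) (dv k α) (dv k α') (fun _ => 1)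
      (fun _ => 1) (va k a a') (wa k a a')
      W η τ 0 0 ∅ (fun _ => zero_le_one) (fun _ => zero_le_one) (wa_nonneg k a a') hW1 hη0 hτ0 le_rfl le_rfl
      (fun β hβ1 hβ2 => Or.inl (hminor β hβ1 hβ2)) N
    set m1 : ℝ := (T.card : ℝ) with hm1
    set m2 : ℝ := (T'.card : ℝ) with hm2
    have hsm1 : ∑ _ω ∈ T, (1 : ℝ) = m1 := by simp [hm1]
    have hsm2 : ∑ _ω ∈ T', (1 : ℝ) = m2 := by simp [hm2]
    have hm10 : 0 ≤ m1 := Nat.cast_nonneg _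
    have hm20 : 0 ≤ m2 := Nat.cast_nonneg _
    have hwin : m1 * m2 * (κ0 * W * Y) ≤
        ∑ h ∈ range W, R3 T T' (L1 ×ˢ L2) (dv k α) (dv k α') (fun _ => 1) (fun _ => 1) (va k a a') (wa k a a') (N + h) := by
      have := R3_window_ge T T' (L1 ×ˢ L2) (dv k α) (dv k α') (fun _ => 1) (fun _ => 1) (va k a a') (wa k a a')
        W N (fun _ => zero_le_one) (fun _ => zero_le_one) (κ0 * W * Y) ((1 + v3) * (X : ℤ) ^ k)
        ((v1 + v2 : ℕ) * (X : ℤ) ^ k) (hvT T hT) (hvT' T' hT') (hNlo N hN1)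
        (fun M hM1 hM2 => hq M hM1 (hM2.trans hN2))
      rwa [hsm1, hsm2] at this
    have hmn : m1 * m2 * (κ0 * Y) ≤
        (∑ h ∈ range W, R3 T T' (L1 ×ˢ L2) (dv k α) (dv k α') (fun _ => 1) (fun _ => 1) (va k a a') (wa k a a')
          (N + h)) / W := by
      rw [le_div_iff₀ hW0]
      refine le_trans (le_of_eq ?_) hwin
      ring
    rw [hsm1, hsm2] at hc2
    have a0 := (abs_le.mp hc2).1
    have a1 : 16 * W * η ^ 2 * m1 * m2 * (∑ z ∈ L1 ×ˢ L2, wa k a a' z) ≤ m1 * m2 * (κ0 / 2 * Y) := by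
      calc 16 * W * η ^ 2 * m1 * m2 * (∑ z ∈ L1 ×ˢ L2, wa k a a' z) =
          m1 * m2 * (16 * W * η ^ 2 * (∑ z ∈ L1 ×ˢ L2, wa k a a' z)) := by ring
        _ ≤ _ := by gcongr
    have a2 : τ * (En T (dv k α) (fun _ => 1) + En T' (dv k α') (fun _ => 1)) ≤
        2 * (X : ℝ) ^ ((k : ℝ) + 2 - σ / 2) := by
      calc τ * (En T (dv k α) (fun _ => 1) + En T' (dv k α') (fun _ => 1)) ≤
          τ * ((X : ℝ) ^ ((k : ℝ) + σ / 2) + (X : ℝ) ^ ((k : ℝ) + σ / 2)) := by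
            have := hEn T hT
            have := hEn' T' hT'
            gcongr
        _ = 2 * ((X : ℝ) ^ (2 - σ) * (X : ℝ) ^ ((k : ℝ) + σ / 2)) := by rw [hτ]; ring
        _ = 2 * (X : ℝ) ^ ((k : ℝ) + 2 - σ / 2) := by
          rw [← Real.rpow_add hx0]; congr 2; ring
    have a3 : 2 * (X : ℝ) ^ ((k : ℝ) + 2 - σ / 2) ≤ κ0 / 4 * (m1 * m2) * Y := by
      have e1 : (X : ℝ) ^ ((k : ℝ) + 2 - σ / 2) * (X : ℝ) ^ (σ / 4) = (X : ℝ) ^ (2 * (k : ℝ) - σ / 4) * Y := by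
        rw [hY, ← Real.rpow_add hx0, ← Real.rpow_add hx0]
        congr 1; ring
      have e2 : 8 ≤ κ0 * (X : ℝ) ^ (σ / 4) := by
        rw [div_le_iff₀ hκ00] at h3
        linarith
      have e3 : 0 ≤ (X : ℝ) ^ ((k : ℝ) + 2 - σ / 2) := by positivity
      calc 2 * (X : ℝ) ^ ((k : ℝ) + 2 - σ / 2)
          = (8 / 4) * (X : ℝ) ^ ((k : ℝ) + 2 - σ / 2) := by ring
        _ ≤ ((κ0 * (X : ℝ) ^ (σ / 4)) / 4) * (X : ℝ) ^ ((k : ℝ) + 2 - σ / 2) := by gcongr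
        _ = κ0 / 4 * ((X : ℝ) ^ ((k : ℝ) + 2 - σ / 2) * (X : ℝ) ^ (σ / 4)) := by ring
        _ = κ0 / 4 * ((X : ℝ) ^ (2 * (k : ℝ) - σ / 4) * Y) := by rw [e1]
        _ ≤ κ0 / 4 * ((m1 * m2) * Y) := by gcongr
        _ = _ := by ring
    have a4 : m1 * m2 * (κ0 * Y) = 2 * (m1 * m2 * (κ0 / 2 * Y)) := by ring
    have a5 : m1 * m2 * (κ0 / 2 * Y) = 2 * (κ0 / 4 * (m1 * m2) * Y) := by ring
    simp only [mul_zero, zero_mul, add_zero] at a0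
    linarith
  · intro T hT hcard S hS
    set m1 : ℝ := (T.card : ℝ) with hm1
    have hsm1 : ∑ _ω ∈ T, (1 : ℝ) = m1 := by simp [hm1]
    have hm10 : 0 < m1 := lt_of_lt_of_le (Real.rpow_pos_of_pos hx0 _) hcard
    set ρ : ℝ := m1 * (κ0 / 2 * Y) with hρ
    have hρ0 : 0 < ρ := by positivity
    have hkey := Pool.Agent.N624.MWCirc.circ1 (Fin k → ℕ) (ℕ × ℕ) T (L1 ×ˢ L2) (dv k α) (fun _ => 1) (va k a a')
      (wa k a a') W η τ ρ (fun _ => zero_le_one) (wa_nonneg k a a') hW1 hη0 hτ0 hρ0.le hminor S (by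
      intro N hN
      obtain ⟨hN1, hN2, hN3⟩ := hS N hN
      have hwin : m1 * (κ0 * W * Y) ≤
          ∑ h ∈ range W, R1 T (L1 ×ˢ L2) (dv k α) (fun _ => 1) (va k a a') (wa k a a') (N + h) := by
        have := R1_window_ge T (L1 ×ˢ L2) (dv k α) (fun _ => 1) (va k a a') (wa k a a') W N (fun _ => zero_le_one)
          (κ0 * W * Y) ((1 + v3) * (X : ℤ) ^ k) ((v1 + v2 : ℕ) * (X : ℤ) ^ k) (hvT T hT) (by
            have g1 := hNlo N hN1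
            have : (0 : ℤ) ≤ (v1 + v2 : ℕ) * (X : ℤ) ^ k := by positivity
            linarith) (fun M hM1 hM2 => hq M hM1 (hM2.trans hN2))
        rwa [hsm1] at this
      have hmn : m1 * (κ0 * Y) ≤
          (∑ h ∈ range W, R1 T (L1 ×ˢ L2) (dv k α) (fun _ => 1) (va k a a') (wa k a a') (N + h)) / W := by
        rw [le_div_iff₀ hW0]
        refine le_trans (le_of_eq ?_) hwin
        ring
      rw [hN3, zero_sub, abs_neg, hsm1]
      refine le_trans ?_ (le_abs_self _)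
      refine le_trans ?_ hmn
      have a1 : 16 * W * η ^ 2 * m1 * (∑ z ∈ L1 ×ˢ L2, wa k a a' z) ≤ m1 * (κ0 / 2 * Y) := by
        calc 16 * W * η ^ 2 * m1 * (∑ z ∈ L1 ×ˢ L2, wa k a a' z) =
            m1 * (16 * W * η ^ 2 * (∑ z ∈ L1 ×ˢ L2, wa k a a' z)) := by ring
          _ ≤ _ := by gcongr
      have a3 : m1 * (κ0 * Y) = 2 * (m1 * (κ0 / 2 * Y)) := by ring
      rw [a3]; linarith)
    have b1 : (S.card : ℝ) * ρ ^ 2 ≤ 4 * (X : ℝ) ^ ((k : ℝ) + 4 - 3 * (σ / 2)) := by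
      refine hkey.trans ?_
      calc 4 * τ ^ 2 * En T (dv k α) (fun _ => 1) ≤ 4 * τ ^ 2 * (X : ℝ) ^ ((k : ℝ) + σ / 2) := by
            have := hEn T hT
            gcongr
        _ = 4 * (X : ℝ) ^ ((k : ℝ) + 4 - 3 * (σ / 2)) := by
          rw [hτ, sq, mul_assoc, ← Real.rpow_add hx0, ← Real.rpow_add hx0]; congr 2; ring
    have b2 : (κ0 / 2) ^ 2 * (X : ℝ) ^ (4 - σ / 4) ≤ ρ ^ 2 := by
      have e1 : (X : ℝ) ^ ((k : ℝ) - σ / 8) * Y = (X : ℝ) ^ (2 - σ / 8) := by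
        rw [hY, ← Real.rpow_add hx0]; congr 1; ring
      have e2 : κ0 / 2 * (X : ℝ) ^ (2 - σ / 8) ≤ ρ := by
        calc κ0 / 2 * (X : ℝ) ^ (2 - σ / 8) = κ0 / 2 * ((X : ℝ) ^ ((k : ℝ) - σ / 8) * Y) := by rw [e1]
          _ ≤ κ0 / 2 * (m1 * Y) := by gcongr
          _ = ρ := by rw [hρ]; ring
      have e3 : ((X : ℝ) ^ (2 - σ / 8)) ^ 2 = (X : ℝ) ^ (4 - σ / 4) := by
        rw [sq, ← Real.rpow_add hx0]; congr 1; ring
      calc (κ0 / 2) ^ 2 * (X : ℝ) ^ (4 - σ / 4) = (κ0 / 2 * (X : ℝ) ^ (2 - σ / 8)) ^ 2 := by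
            rw [mul_pow, e3]
        _ ≤ ρ ^ 2 := by gcongr
    have b3 : (S.card : ℝ) * ((κ0 / 2) ^ 2 * (X : ℝ) ^ (4 - σ / 4)) ≤
        4 * (X : ℝ) ^ ((k : ℝ) + 4 - 3 * (σ / 2)) := by
      refine le_trans ?_ b1
      gcongr
    have b4 : 4 * (X : ℝ) ^ ((k : ℝ) + 4 - 3 * (σ / 2)) ≤
        (X : ℝ) ^ ((k : ℝ) - σ) * ((κ0 / 2) ^ 2 * (X : ℝ) ^ (4 - σ / 4)) := by
      have e1 : (X : ℝ) ^ ((k : ℝ) - σ) * (X : ℝ) ^ (4 - σ / 4) =
          (X : ℝ) ^ ((k : ℝ) + 4 - 3 * (σ / 2)) * (X : ℝ) ^ (σ / 4) := by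
        rw [← Real.rpow_add hx0, ← Real.rpow_add hx0]; congr 1; ring
      have e2 : 4 ≤ (κ0 / 2) ^ 2 * (X : ℝ) ^ (σ / 4) := by
        have e4 : (κ0 / 2) ^ 2 * (4 * (2 / κ0) ^ 2) = 4 := by
          have := hκ00.ne'
          field_simp
        calc (4 : ℝ) = (κ0 / 2) ^ 2 * (4 * (2 / κ0) ^ 2) := e4.symm
          _ ≤ _ := by gcongr
      have e3 : 0 ≤ (X : ℝ) ^ ((k : ℝ) + 4 - 3 * (σ / 2)) := by positivity
      calc 4 * (X : ℝ) ^ ((k : ℝ) + 4 - 3 * (σ / 2))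
          ≤ ((κ0 / 2) ^ 2 * (X : ℝ) ^ (σ / 4)) * (X : ℝ) ^ ((k : ℝ) + 4 - 3 * (σ / 2)) := by gcongr
        _ = (κ0 / 2) ^ 2 * ((X : ℝ) ^ ((k : ℝ) + 4 - 3 * (σ / 2)) * (X : ℝ) ^ (σ / 4)) := by ring
        _ = (κ0 / 2) ^ 2 * ((X : ℝ) ^ ((k : ℝ) - σ) * (X : ℝ) ^ (4 - σ / 4)) := by rw [e1]
        _ = _ := by ring
    exact le_of_mul_le_mul_right (b3.trans b4) (by positivity)

end Pool.Agent.N732.ArbD
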