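import Mathlib
import Pool.Agent.N732.ArbDiag

/-! Generic diagonal forms with variables in arbitrary sets and two prime variables: all scales. -/

set_option autoImplicit false

namespace Pool.Agent.N732.ArbD

open Finset MeasureTheory Pool.Agent.N604.MW

/-- `A` has at least `x ^ (1 - δ)` elements in `[x, 2 x]` for all large `x` -/
def Lg (δ : ℝ) (A : Set ℕ) : Prop := ∃ x0 : ℕ, ∀ x : ℕ, x0 ≤ x →
  (x : ℝ) ^ (1 - δ) ≤ ({a : ℕ | a ∈ A ∧ x ≤ a ∧ a ≤ 2 * x}.ncard : ℝ)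

open Classical in
/-- the tuples of the box with coordinates in the given sets -/
noncomputable def TD (k : ℕ) (A : Fin k → Set ℕ) (X : ℕ) : Finset (Fin k → ℕ) :=
  Fintype.piFinset fun i => (Finset.Icc X (2 * X)).filter (fun a => a ∈ A i)

lemma TD_sub (k : ℕ) (A : Fin k → Set ℕ) (X : ℕ) : TD k A X ⊆ DBox k X := by
  classical
  intro n hn
  unfold TD at hn
  unfold DBox
  rw [Fintype.mem_piFinset] at hn ⊢
  intro i
  exact (mem_filter.1 (hn i)).1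

lemma TD_mem {k : ℕ} {A : Fin k → Set ℕ} {X : ℕ} {n : Fin k → ℕ} (hn : n ∈ TD k A X) (i : Fin k) :
    n i ∈ A i := by
  classical
  unfold TD at hn
  rw [Fintype.mem_piFinset] at hn
  exact (mem_filter.1 (hn i)).2

lemma TD_card (k : ℕ) (A : Fin k → Set ℕ) (δ : ℝ) (hA : ∀ i, Lg δ (A i)) :
    ∃ X0 : ℕ, ∀ X : ℕ, X0 ≤ X → (X : ℝ) ^ ((k : ℝ) * (1 - δ)) ≤ ((TD k A X).card : ℝ) := by
  classical
  choose x0 hx0 using hA
  refine ⟨∑ i, x0 i + 1, fun X hX => ?_⟩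
  have hX1 : 1 ≤ X := by omega
  have hx0' : (0 : ℝ) < X := by exact_mod_cast hX1
  have hXi : ∀ i, x0 i ≤ X := fun i =>
    (Finset.single_le_sum (f := x0) (fun _ _ => Nat.zero_le _) (mem_univ i)).trans (by omega)
  unfold TD
  rw [Fintype.card_piFinset]
  push_cast
  have h1 : ∀ i : Fin k, (X : ℝ) ^ (1 - δ) ≤
      ((((Finset.Icc X (2 * X)).filter (fun a => a ∈ A i)).card : ℕ) : ℝ) := by
    intro i
    refine (hx0 i X (hXi i)).trans ?_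
    rw [← Set.ncard_coe_finset]
    refine Nat.cast_le.2 (Set.ncard_le_ncard ?_ (Finset.finite_toSet _))
    rintro a ⟨ha, ha1, ha2⟩
    rw [Finset.mem_coe, mem_filter, Finset.mem_Icc]
    exact ⟨⟨ha1, ha2⟩, ha⟩
  calc (X : ℝ) ^ ((k : ℝ) * (1 - δ)) = ∏ _i : Fin k, (X : ℝ) ^ (1 - δ) := by
        rw [prod_const, card_univ, Fintype.card_fin, ← Real.rpow_natCast, ← Real.rpow_mul hx0'.le]
        congr 1; ring
    _ ≤ _ := prod_le_prod (fun _ _ => by positivity) (fun i _ => h1 i)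

/-- from the weighted number to the number of solutions -/
lemma count3 {k : ℕ} (α α' : Fin k → ℝ) (a a' : ℝ) {T T' : Finset (Fin k → ℕ)} {L L' : Finset ℕ} (N : ℤ) (B : ℝ)
    (hB0 : 0 ≤ B) (hB : ∀ n ∈ L, lam n ≤ B) (hB' : ∀ n ∈ L', lam n ≤ B) :
    ∃ S : Finset ((Fin k → ℕ) × (Fin k → ℕ) × (ℕ × ℕ)),
      (∀ z ∈ S, z.1 ∈ T ∧ z.2.1 ∈ T' ∧ z.2.2.1.Prime ∧ z.2.2.2.Prime ∧
        dv k α z.1 + dv k α' z.2.1 + (da k a z.2.2.1 + da k a' z.2.2.2) = N) ∧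
      R3 T T' (L ×ˢ L') (dv k α) (dv k α') (fun _ => 1) (fun _ => 1) (va k a a') (wa k a a') N ≤ B ^ 2 * S.card := by
  classical
  refine ⟨(T ×ˢ T' ×ˢ (L ×ˢ L')).filter (fun z => dv k α z.1 + dv k α' z.2.1 + va k a a' z.2.2 = N ∧
    (z.2.2.1.Prime ∧ z.2.2.2.Prime)), ?_, ?_⟩
  · intro z hz
    rw [mem_filter, mem_product, mem_product] at hz
    exact ⟨hz.1.1, hz.1.2.1, hz.2.2.1, hz.2.2.2, hz.2.1⟩
  · rw [card_filter, sum_product]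
    push_cast
    rw [mul_sum]
    unfold R3
    apply sum_le_sum
    intro ω _
    rw [sum_product, mul_sum]
    apply sum_le_sum
    intro ω' _
    rw [mul_sum]
    apply sum_le_sum
    intro z hz
    have hz1 := (mem_product.1 hz).1
    have hz2 := (mem_product.1 hz).2
    by_cases h1 : dv k α ω + dv k α' ω' + va k a a' z = N
    · rw [if_pos h1]
      by_cases h2 : z.1.Prime ∧ z.2.Prime
      · rw [if_pos ⟨h1, h2⟩]
        have e1 : wa k a a' z ≤ B * B :=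
          mul_le_mul ((dw_le k a z.1).trans (hB _ hz1)) ((dw_le k a' z.2).trans (hB' _ hz2)) (dw_nonneg _ _ _) hB0
        nlinarith
      · rw [if_neg (fun h => h2 h.2)]
        have h3 : wa k a a' z = 0 := by
          unfold wa dw lam
          rw [not_and_or] at h2
          rcases h2 with h | h
          · rw [if_neg h]; ring
          · rw [if_neg h]; ring
        rw [h3]
        simp
    · rw [if_neg h1, if_neg (fun h => h1 h.1)]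
      simp

lemma count1 {k : ℕ} (α : Fin k → ℝ) (a a' : ℝ) {T : Finset (Fin k → ℕ)} {L L' : Finset ℕ} (N : ℤ)
    (h : ¬ ∃ t ∈ T, ∃ p p' : ℕ, p.Prime ∧ p'.Prime ∧ dv k α t + (da k a p + da k a' p') = N) :
    R1 T (L ×ˢ L') (dv k α) (fun _ => 1) (va k a a') (wa k a a') N = 0 := by
  unfold R1
  apply sum_eq_zero; intro ω hω
  apply sum_eq_zero; intro z hz
  by_cases hsum : dv k α ω + va k a a' z = N
  · rw [if_pos hsum]
    by_contra hne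
    apply h
    have h2 := right_ne_zero_of_mul hne
    unfold wa dw at h2
    refine ⟨ω, hω, z.1, z.2, prime_of_lam_ne (left_ne_zero_of_mul (left_ne_zero_of_mul h2)),
      prime_of_lam_ne (left_ne_zero_of_mul (right_ne_zero_of_mul h2)), hsum⟩
  · rw [if_neg hsum]

/-- part one -/
theorem part1 {k : ℕ} (hk : 2 ≤ k) {α α' : Fin k → ℝ} {a a' : ℝ} {v C0 : ℕ} {κ σ : ℝ} {ν0 : ℕ}
    (h : ∀ ν : ℕ, ν0 ≤ ν → ScaleD k α α' a a' v C0 κ σ (2 ^ ν)) :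
    ∃ ν1 : ℕ, ∀ ν : ℕ, ν1 ≤ ν → ∀ T T' : Finset (Fin k → ℕ), T ⊆ DBox k (2 ^ ν) → T' ⊆ DBox k (2 ^ ν) →
      ((2 ^ ν : ℕ) : ℝ) ^ (2 * (k : ℝ) - σ / 4) ≤ (T.card : ℝ) * T'.card →
      ∀ N : ℕ, (2 * v + 1) * (2 ^ ν) ^ k ≤ N → N ≤ 2 ^ k * ((2 * v + 1) * (2 ^ ν) ^ k) →
      1 < N ∧ ∃ S : Finset ((Fin k → ℕ) × (Fin k → ℕ) × (ℕ × ℕ)),
      (∀ z ∈ S, z.1 ∈ T ∧ z.2.1 ∈ T' ∧ z.2.2.1.Prime ∧ z.2.2.2.Prime ∧
        dv k α z.1 + dv k α' z.2.1 + (da k a z.2.2.1 + da k a' z.2.2.2) = (N : ℤ)) ∧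
      κ * (T.card * T'.card) * ((2 ^ ν : ℕ) : ℝ) ^ (2 - (k : ℝ)) / Real.log N ^ 2 ≤ S.card := by
  refine ⟨ν0 + C0 + 2, fun ν hν T T' hT hT' hcard N hN1 hN2 => ?_⟩
  have hc := (h ν (by omega)).1 T T' hT hT' hcard N (by exact_mod_cast hN1) (by exact_mod_cast hN2)
  have hXν : ν < 2 ^ ν := Nat.lt_two_pow_self
  have hX : 1 ≤ 2 ^ ν := Nat.one_le_two_pow
  generalize hXX : 2 ^ ν = X at *
  have hXN : X * X ≤ N := by
    calc X * X = X ^ 2 := by ring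
      _ ≤ X ^ k := Nat.pow_le_pow_right hX hk
      _ ≤ (2 * v + 1) * X ^ k := Nat.le_mul_of_pos_left _ (by omega)
      _ ≤ N := hN1
  have hC0N : C0 * X ≤ N := (Nat.mul_le_mul_right _ (by omega)).trans hXN
  have h2N : 2 * X ≤ N := (Nat.mul_le_mul_right _ (by omega)).trans hXN
  have hN4 : 4 ≤ N := by
    have : 2 * 2 ≤ X * X := Nat.mul_le_mul (by omega) (by omega)
    omega
  have hlogN : 0 < Real.log N := Real.log_pos (by exact_mod_cast (by omega : 1 < N))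
  obtain ⟨S, hS, hScard⟩ := count3 α α' a a' (T := T) (T' := T') (L := Finset.Ico 1 (C0 * X))
    (L' := Finset.Icc X (2 * X)) N (Real.log N) hlogN.le
    (fun n hn => lam_le_log ((Finset.mem_Ico.1 hn).2.le.trans hC0N))
    (fun n hn => lam_le_log ((Finset.mem_Icc.1 hn).2.trans h2N))
  refine ⟨by omega, S, hS, ?_⟩
  have h5 := hc.trans hScard
  rw [div_le_iff₀ (by positivity)]
  linarith

/-- all large integers -/
theorem part2 {k : ℕ} (hk : 2 ≤ k) {α α' : Fin k → ℝ} {a a' : ℝ} {v C0 : ℕ} {κ σ : ℝ} (hκ : 0 < κ) {ν0 : ℕ}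
    (h : ∀ ν : ℕ, ν0 ≤ ν → ScaleD k α α' a a' v C0 κ σ (2 ^ ν)) (A A' : Fin k → Set ℕ)
    (hA : ∀ i, Lg (σ / (8 * k)) (A i)) (hA' : ∀ i, Lg (σ / (8 * k)) (A' i)) :
    ∃ N0 : ℕ, ∀ N : ℕ, N0 ≤ N → ∃ (t t' : Fin k → ℕ) (p p' : ℕ), (∀ i, t i ∈ A i) ∧ (∀ i, t' i ∈ A' i) ∧
      p.Prime ∧ p'.Prime ∧ dv k α t + dv k α' t' + (da k a p + da k a' p') = (N : ℤ) := by
  obtain ⟨ν1, h1⟩ := part1 hk h
  have hk0 : (0 : ℝ) < k := by exact_mod_cast (by omega : 0 < k)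
  obtain ⟨X1, hX1⟩ := TD_card k A _ hA
  obtain ⟨X2, hX2⟩ := TD_card k A' _ hA'
  refine ⟨(2 * v + 1) * (2 ^ (ν1 + X1 + X2 + 1)) ^ k, fun N hN => ?_⟩
  obtain ⟨ν, hν, e1, e2⟩ := scale v k (ν1 + X1 + X2 + 1) N (by omega) hN
  have hXν : ν < 2 ^ ν := Nat.lt_two_pow_self
  have hc1 := hX1 (2 ^ ν) (by omega)
  have hc2 := hX2 (2 ^ ν) (by omega)
  have hx1 : (1 : ℝ) ≤ ((2 ^ ν : ℕ) : ℝ) := by exact_mod_cast Nat.one_le_two_pow
  have hx0 : (0 : ℝ) < ((2 ^ ν : ℕ) : ℝ) := by linarith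
  have hcard : ((2 ^ ν : ℕ) : ℝ) ^ (2 * (k : ℝ) - σ / 4) ≤
      ((TD k A (2 ^ ν)).card : ℝ) * (TD k A' (2 ^ ν)).card := by
    calc ((2 ^ ν : ℕ) : ℝ) ^ (2 * (k : ℝ) - σ / 4) =
        ((2 ^ ν : ℕ) : ℝ) ^ ((k : ℝ) * (1 - σ / (8 * k))) * ((2 ^ ν : ℕ) : ℝ) ^ ((k : ℝ) * (1 - σ / (8 * k))) := by
          rw [← Real.rpow_add hx0]
          congr 1
          field_simp
          ring
      _ ≤ _ := mul_le_mul hc1 hc2 (by positivity) (by positivity)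
  obtain ⟨hN1, S, hS, hSc⟩ := h1 ν (by omega) _ _ (TD_sub _ A _) (TD_sub _ A' _) hcard N e1 e2.le
  have hpos : 0 < (S.card : ℝ) := by
    refine lt_of_lt_of_le ?_ hSc
    have hT : 0 < ((TD k A (2 ^ ν)).card : ℝ) * (TD k A' (2 ^ ν)).card :=
      lt_of_lt_of_le (by positivity) hcard
    have := Real.log_pos (show (1 : ℝ) < N by exact_mod_cast hN1)
    positivity
  obtain ⟨z, hz⟩ := card_pos.1 (by exact_mod_cast hpos)
  obtain ⟨z1, z2, z3, z4, z5⟩ := hS z hz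
  exact ⟨z.1, z.2.1, z.2.2.1, z.2.2.2, fun i => TD_mem z1 i, fun i => TD_mem z2 i, z3, z4, z5⟩

/-- one scale, few exceptions -/
theorem exc_scale {k : ℕ} {α α' : Fin k → ℝ} {a a' : ℝ} {v C0 : ℕ} {κ σ : ℝ} {X : ℕ}
    (h : ScaleD k α α' a a' v C0 κ σ X) (T : Finset (Fin k → ℕ))
    (hT : T ⊆ DBox k X) (hcard : (X : ℝ) ^ ((k : ℝ) - σ / 8) ≤ (T.card : ℝ)) (S : Finset ℕ)
    (hS : ∀ m ∈ S, (2 * v + 1) * X ^ k ≤ m ∧ m ≤ 2 ^ k * ((2 * v + 1) * X ^ k) ∧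
      ¬ ∃ t ∈ T, ∃ p p' : ℕ, p.Prime ∧ p'.Prime ∧ dv k α t + (da k a p + da k a' p') = (m : ℤ)) :
    (S.card : ℝ) ≤ (X : ℝ) ^ ((k : ℝ) - σ) := by
  have h1 := h.2 T hT hcard (S.map Nat.castEmbedding) (by
    intro M hM
    rw [mem_map] at hM
    obtain ⟨m, hm, rfl⟩ := hM
    obtain ⟨e1, e2, e3⟩ := hS m hm
    refine ⟨?_, ?_, ?_⟩
    · simp only [Nat.castEmbedding_apply]; exact_mod_cast e1
    · simp only [Nat.castEmbedding_apply]; exact_mod_cast e2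
    · simp only [Nat.castEmbedding_apply]
      exact count1 α a a' (m : ℤ) e3)
  rwa [card_map] at h1

/-- almost all integers -/
theorem part3 {k : ℕ} (hk : 2 ≤ k) {α α' : Fin k → ℝ} {a a' : ℝ} {v C0 : ℕ} {κ σ : ℝ} (hσ : 0 < σ) {ν0 : ℕ}
    (h : ∀ ν : ℕ, ν0 ≤ ν → ScaleD k α α' a a' v C0 κ σ (2 ^ ν)) (A : Fin k → Set ℕ)
    (hA : ∀ i, Lg (σ / (8 * k)) (A i)) :
    ∃ σ' : ℝ, 0 < σ' ∧ ∃ N0 : ℕ, ∀ N : ℕ, N0 ≤ N →
      (({m : ℕ | m ≤ N ∧ ¬ ∃ (t : Fin k → ℕ) (p p' : ℕ), (∀ i, t i ∈ A i) ∧ p.Prime ∧ p'.Prime ∧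
        dv k α t + (da k a p + da k a' p') = (m : ℤ)}.ncard : ℕ) : ℝ) ≤ (N : ℝ) ^ (1 - σ') := by
  have hk0 : (0 : ℝ) < k := by exact_mod_cast (by omega : 0 < k)
  obtain ⟨X1, hX1⟩ := TD_card k A _ hA
  refine Pool.Agent.N732.Arb.exceptional (k := k) (v := v) (σ := σ) hσ (ν0 := ν0 + X1) hk _ fun ν hν S hS => ?_
  have hXν : ν < 2 ^ ν := Nat.lt_two_pow_self
  have hc1 := hX1 (2 ^ ν) (by omega)
  refine exc_scale (h ν (by omega)) (TD k A (2 ^ ν)) (TD_sub _ A _) (by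
    refine le_trans (le_of_eq ?_) hc1
    congr 1
    field_simp) S (by
    intro m hm
    obtain ⟨e1, e2, e3⟩ := hS m hm
    refine ⟨e1, e2, ?_⟩
    rintro ⟨t, ht, p, p', hp, hp', hs⟩
    exact e3 ⟨t, p, p', fun i => TD_mem ht i, hp, hp', hs⟩)

end Pool.Agent.N732.ArbD
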