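import Mathlib
import Pool.Agent.TH881.RQ.Wrap
import Pool.Agent.TH494.J1511

/-! Linear polynomials at the primes: `N = a p + b + q`, the prime `p` restricted. -/

set_option autoImplicit false

namespace Pool.Agent.N732.LinP

open Finset Filter Topology Polynomial
open Pool.Agent.TH881
open Pool.Agent.TH881.RG
open Pool.Agent.TH881.RQ
open Pool.Agent.H373R2.T7
open Pool.Agent.TH914.J2925 (prod_lim Vz_log pz_three nuq_lt one_le_nuq le_mq mqQ_two)
open Pool.Agent.TH914.J2922 (mq_le mq_lt)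
open Pool.Agent.TH416.J3004

/-- the polynomial `a X + b` -/
noncomputable def lin (a : ℕ) (b : ℤ) : ℤ[X] := C (a : ℤ) * X + C b

lemma lin_eval (a : ℕ) (b x : ℤ) : (lin a b).eval x = a * x + b := by
  simp [lin]

lemma lin_natDegree {a : ℕ} (b : ℤ) (ha : 1 ≤ a) : (lin a b).natDegree = 1 :=
  natDegree_linear (by exact_mod_cast (by omega : a ≠ 0))

lemma lin_leadingCoeff {a : ℕ} (b : ℤ) (ha : 1 ≤ a) : (lin a b).leadingCoeff = a :=
  leadingCoeff_linear (by exact_mod_cast (by omega : a ≠ 0))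

lemma gv_lin (a : ℕ) (b : ℤ) (w : ℕ) (x : ZMod (Wp w)) : gv (lin a b) w x = a * x + b := by
  unfold gv lin
  simp

open Classical in
lemma sumq_lin (a : ℕ) (b : ℤ) (w : ℕ) (B : Finset (ZMod (Wp w))) :
    sumq (lin a b) (-1) w B = univ.filter (fun t => ∃ x ∈ B, IsUnit (t - (a * x + b))) := by
  unfold sumq
  apply filter_congr
  intro t _
  have h2 : ∀ x : ZMod (Wp w), gd (lin a b) (-1) w t x ↔ IsUnit (t - (a * x + b)) := by
    intro x
    unfold gd
    rw [gv_lin]
    have h2 : t + ((-1 : ℤ) : ZMod (Wp w)) * (a * x + b) = t - (a * x + b) := by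
      push_cast
      ring
    rw [h2]
  simp only [h2]

/-- the upper bound for the number of hit integers -/
lemma cnt_hit_lin (a : ℕ) (b : ℤ) (ha : 1 ≤ a) (w : ℕ) (B : Finset (ZMod (Wp w))) (x : ℕ) :
    cnt (hit true (lin a b) (-1) {n : ℕ | (n : ZMod (Wp w)) ∈ B}) x ≤
      cnt (per (Wp w) (sumq (lin a b) (-1) w B)) x +
        (w + 1) * ((Icc 1 (x + b.natAbs)).filter Nat.Prime).card := by
  classical
  set E : Finset ℕ := (range (w + 1)).biUnion (fun q =>
    ((Icc 1 (x + b.natAbs)).filter Nat.Prime).image (fun p : ℕ => ((a * p + b + q : ℤ)).toNat)) with hE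
  have hEc : E.card ≤ (w + 1) * ((Icc 1 (x + b.natAbs)).filter Nat.Prime).card := by
    rw [hE]
    refine card_biUnion_le.trans ?_
    calc ∑ q ∈ range (w + 1), (((Icc 1 (x + b.natAbs)).filter Nat.Prime).image
            (fun p : ℕ => ((a * p + b + q : ℤ)).toNat)).card ≤
        ∑ q ∈ range (w + 1), ((Icc 1 (x + b.natAbs)).filter Nat.Prime).card :=
          sum_le_sum fun l _ => card_image_le
      _ = _ := by rw [sum_const, card_range, smul_eq_mul]
  have hsub : (Icc 1 x).filter (fun N => N ∈ hit true (lin a b) (-1)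
      {n : ℕ | (n : ZMod (Wp w)) ∈ B}) ⊆
      (Icc 1 x).filter (fun N => N ∈ per (Wp w) (sumq (lin a b) (-1) w B)) ∪ E := by
    intro N hN
    rw [mem_filter] at hN
    obtain ⟨hNI, n, hnp, hnB, hq⟩ := hN
    have hnp' : n.Prime := hnp rfl
    obtain ⟨q, hqd⟩ : ∃ q : ℕ, q = ((N : ℤ) + (-1) * (lin a b).eval (n : ℤ)).toNat := ⟨_, rfl⟩
    rw [← hqd] at hq
    have hqe : (N : ℤ) + (-1) * (lin a b).eval (n : ℤ) = q := by
      have h1 : 0 < ((N : ℤ) + (-1) * (lin a b).eval (n : ℤ)).toNat := by rw [← hqd]; exact hq.pos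
      rw [hqd, Int.toNat_of_nonneg]
      omega
    rw [mem_union]
    by_cases hqw : q ≤ w
    · right
      rw [hE, mem_biUnion]
      refine ⟨q, mem_range.2 (by omega), ?_⟩
      rw [mem_image]
      rw [lin_eval] at hqe
      have hN1 := mem_Icc.1 hNI
      refine ⟨n, ?_, ?_⟩
      · rw [mem_filter, mem_Icc]
        refine ⟨⟨hnp'.pos, ?_⟩, hnp'⟩
        have h1 : (n : ℤ) ≤ a * n := by
          have : (1 : ℤ) ≤ a := by exact_mod_cast ha
          nlinarith [Int.natCast_nonneg n]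
        have h2 : (n : ℤ) ≤ N - b - q := by linarith
        have h3 : (n : ℤ) ≤ (x : ℤ) + b.natAbs := by
          have h4 : (N : ℤ) ≤ x := by exact_mod_cast hN1.2
          omega
        exact_mod_cast h3
      · have : (a * n + b + q : ℤ) = N := by linarith
        rw [this, Int.toNat_natCast]
    · left
      rw [mem_filter]
      refine ⟨hNI, (mem_Icc.1 hNI).1, ?_⟩
      unfold sumq
      rw [mem_filter]
      refine ⟨mem_univ _, (n : ZMod (Wp w)), hnB, ?_⟩
      unfold gd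
      rw [Pool.Agent.TH881.RQ.gv_cast]
      have h2 : ((N : ZMod (Wp w))) + ((-1 : ℤ) : ZMod (Wp w)) *
          (((lin a b).eval (n : ℤ) : ℤ) : ZMod (Wp w)) = (q : ZMod (Wp w)) := by
        have := congrArg (fun z : ℤ => (z : ZMod (Wp w))) hqe
        push_cast at this ⊢
        exact this
      rw [h2, ZMod.isUnit_iff_coprime, Nat.Prime.coprime_iff_not_dvd hq, prime_dvd_Wp hq]
      omega
  have h := ((card_le_card hsub).trans (card_union_le _ _)).trans (Nat.add_le_add_left hEc _)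
  unfold cnt
  convert h

theorem hit_upper_lin (a : ℕ) (b : ℤ) (ha : 1 ≤ a) (w : ℕ) (B : Finset (ZMod (Wp w))) :
    lowerDensity (hit true (lin a b) (-1) {n : ℕ | (n : ZMod (Wp w)) ∈ B}) ≤
      ((sumq (lin a b) (-1) w B).card : ℝ) / Wp w := by
  apply le_of_forall_pos_le_add
  intro ε hε
  apply lowerDensity_le
  have hlin : ∀ᶠ x : ℕ in atTop, ((sumq (lin a b) (-1) w B).card : ℝ) ≤ ε / 2 * (x : ℝ) :=
    (tendsto_natCast_atTop_atTop.const_mul_atTop (by positivity)).eventually_ge_atTop _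
  have hpr := (tendsto_add_atTop_nat b.natAbs).eventually
    (Pool.Agent.TH494.RG.primes_small Pool.Agent.TH881.RG.stPC (ε / (4 * (w + 1))) (by positivity))
  have hb : ∀ᶠ x : ℕ in atTop, (b.natAbs : ℝ) ≤ 1 * (x : ℝ) :=
    (tendsto_natCast_atTop_atTop.const_mul_atTop (by norm_num)).eventually_ge_atTop _
  filter_upwards [hlin, hpr, hb] with x h1 h2 h2b
  have h3 := cnt_hit_lin a b ha w B x
  have h4 : (cnt (hit true (lin a b) (-1) {n : ℕ | (n : ZMod (Wp w)) ∈ B}) x : ℝ) ≤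
      (cnt (per (Wp w) (sumq (lin a b) (-1) w B)) x : ℝ) +
        ((w : ℝ) + 1) * (((Icc 1 (x + b.natAbs)).filter Nat.Prime).card : ℝ) := by exact_mod_cast h3
  have h5 := (abs_le.1 (cnt_per (Wp w) (Wp_pos w) (sumq (lin a b) (-1) w B) x)).2
  have h7 : ((w : ℝ) + 1) * (((Icc 1 (x + b.natAbs)).filter Nat.Prime).card : ℝ) ≤ ε / 2 * x := by
    calc ((w : ℝ) + 1) * (((Icc 1 (x + b.natAbs)).filter Nat.Prime).card : ℝ) ≤
        ((w : ℝ) + 1) * (ε / (4 * (w + 1)) * ((x + b.natAbs : ℕ) : ℝ)) := by gcongr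
      _ = ε / 4 * ((x + b.natAbs : ℕ) : ℝ) := by field_simp
      _ ≤ ε / 4 * (2 * x) := by
          push_cast
          have : (x : ℝ) + b.natAbs ≤ 2 * x := by linarith
          gcongr
      _ = ε / 2 * x := by ring
  have h6 : (((sumq (lin a b) (-1) w B).card : ℝ) / Wp w + ε) * x =
      ((sumq (lin a b) (-1) w B).card : ℝ) / Wp w * x + ε / 2 * x + ε / 2 * x := by ring
  rw [h6]
  linarith

theorem stClass_lin (a : ℕ) (b : ℤ) (ha : 1 ≤ a) : StClass true (lin a b) (-1) := by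
  intro w B hB
  exact ⟨{n : ℕ | (n : ZMod (Wp w)) ∈ B}, rel_true Pool.Agent.TH881.RG.stPC w B hB,
    hit_upper_lin a b ha w B⟩

theorem formula_lin (a : ℕ) (b : ℤ) (ha : 1 ≤ a) (β : ℝ) (hβ : 0 < β) (hβ1 : β < 1) :
    FFq true (lin a b) (-1) β = Flocq true (lin a b) (-1) β := by
  have hd : 1 ≤ (lin a b).natDegree := by rw [lin_natDegree b ha]
  have hl : 0 < (lin a b).leadingCoeff := by
    rw [lin_leadingCoeff b ha]; exact_mod_cast (by omega : 0 < a)
  exact FFq_eq true (lin a b) hd hl (-1) (Or.inr rfl) (stPMq_in true _ hd hl)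
    (stCont_in true _ (-1) (Or.inr rfl)) (stClass_lin a b ha) β hβ hβ1

theorem law_zero_lin (a : ℕ) (b : ℤ) (ha : 1 ≤ a) :
    Tendsto (fun β : ℝ => Real.log (Real.log (1 / β)) * FFq true (lin a b) (-1) β) (𝓝[>] 0)
      (𝓝 (Real.exp (-Real.eulerMascheroniConstant))) := by
  have hd : 1 ≤ (lin a b).natDegree := by rw [lin_natDegree b ha]
  have hl : 0 < (lin a b).leadingCoeff := by
    rw [lin_leadingCoeff b ha]; exact_mod_cast (by omega : 0 < a)
  refine (Flocq_zero true (lin a b) (-1) (stZero_in true _ hd hl (-1) (Or.inr rfl))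
    (stZeroUp_in true _ (-1) (Or.inr rfl))).congr' ?_
  filter_upwards [Ioo_mem_nhdsGT (show (0 : ℝ) < 1 by norm_num)] with β hβ
  rw [formula_lin a b ha β hβ.1 hβ.2]

/-! ### the law at one for `X + b` -/

lemma mq_lin {p : ℕ} (hp : p.Prime) (h3 : 3 ≤ p) (b : ℤ) : mq true (lin 1 b) p = 1 := by
  have h1 := mq_le true (lin 1 b) p hp
  rw [lin_natDegree b le_rfl] at h1
  have hp0 : (0 : ℤ) < p := by exact_mod_cast hp.pos
  obtain ⟨t, ht, htd⟩ := Pool.Agent.TH914.J2925.ex_rep hp.pos (1 + b)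
  have hu1 : ¬ p ∣ 1 := fun h => by have := Nat.le_of_dvd (by norm_num) h; omega
  have hu2 : ¬ p ∣ 2 := fun h => by have := Nat.le_of_dvd (by norm_num) h; omega
  have h4 : nuq true (lin 1 b) p t < Aq true p := by
    refine nuq_lt hp 2 (by omega) (fun _ => hu2) ?_
    rw [lin_eval]
    intro h
    have h5 := dvd_sub h htd
    have h6 : ((1 : ℕ) : ℤ) * ((2 : ℕ) : ℤ) + b - t - (1 + b - t) = 1 := by push_cast; ring
    rw [h6] at h5
    have := Int.le_of_dvd (by norm_num) h5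
    omega
  have h5 := le_mq ht h4
  have h6 : 1 ≤ nuq true (lin 1 b) p t := by
    refine one_le_nuq (a := 1) (by omega) (fun _ => hu1) ?_
    rw [lin_eval]
    have h7 : ((1 : ℕ) : ℤ) * ((1 : ℕ) : ℤ) + b - t = 1 + b - t := by push_cast; ring
    rw [h7]
    exact htd
  omega

lemma Phq_lin {w : ℕ} (hw : 2 ≤ w) (b : ℤ) : Phq (uq true (lin 1 b)) w =
    2 * (∏ p ∈ (Icc 3 w).filter Nat.Prime, (1 - 1 / ((p : ℝ) - 1) ^ 2)) * Vz w := by
  unfold Phq Vz
  rw [pz_three hw, pz_three hw]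
  have h1 : uq true (lin 1 b) 2 = 0 := by
    unfold uq
    rw [mqQ_two]
    simp
  have h2 : ∏ p ∈ (Icc 3 w).filter Nat.Prime, (1 - uq true (lin 1 b) p) =
      (∏ p ∈ (Icc 3 w).filter Nat.Prime, (1 - 1 / ((p : ℝ) - 1) ^ 2)) *
        (∏ p ∈ (Icc 3 w).filter Nat.Prime, (1 - 1 / (p : ℝ))) := by
    rw [← prod_mul_distrib]
    refine prod_congr rfl fun p hp => ?_
    rw [mem_filter, mem_Icc] at hp
    have h3 : (3 : ℝ) ≤ p := by exact_mod_cast hp.1.1
    have h4 : (p : ℝ) - 1 ≠ 0 := by linarith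
    have h5 : (p : ℝ) ≠ 0 := by linarith
    unfold uq
    rw [mq_lin hp.2 hp.1.1]
    have h6 : ((Aq true p : ℕ) : ℝ) = (p : ℝ) - 1 := by
      simp only [Aq, if_true]
      rw [Nat.cast_sub (by omega)]
      simp
    rw [h6]
    push_cast
    field_simp
    ring
  rw [h1, h2]
  push_cast
  ring

theorem lim_lin (b : ℤ) : Tendsto (fun w : ℕ => Phq (uq true (lin 1 b)) w * Real.log w ^ 1) atTop
    (𝓝 (2 * C2 * Real.exp (-Real.eulerMascheroniConstant))) := by
  have h1 := prod_lim 3 (fun p : ℕ => 1 - 1 / ((p : ℝ) - 1) ^ 2) (by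
    intro m hm
    have h3 : (3 : ℝ) ≤ m := by exact_mod_cast hm
    have h5 : (2 : ℝ) ≤ m - 1 := by linarith
    have h6 : (1 : ℝ) ≤ ((m : ℝ) - 1) ^ 2 := by nlinarith
    constructor
    · rw [sub_nonneg, div_le_one (by positivity)]
      exact h6
    · have : 0 ≤ 1 / ((m : ℝ) - 1) ^ 2 := by positivity
      linarith)
  have h2 := (h1.const_mul 2).mul Vz_log
  refine h2.congr' ?_
  filter_upwards [eventually_ge_atTop 2] with w hw
  rw [Phq_lin hw]
  ring

lemma stAdm_lin (b : ℤ) : StAdm true (lin 1 b) (-1) (1 / 2) := by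
  have he : (b % 2).toNat < 2 := by omega
  apply stAdm_half true (lin 1 b) (-1) (b % 2).toNat he
  · intro p hp n hn
    by_cases h2 : p = 2
    · refine ⟨1, by rw [h2]; simp, ?_⟩
      rw [lin_eval, h2]
      push_cast
      omega
    · have hp3 : 3 ≤ p := by
        have := hp.two_le
        omega
      by_contra hcon
      push Not at hcon
      have k1 := hcon 1 (fun _ h => by have := Nat.le_of_dvd (by norm_num) h; omega)
      have k2 := hcon 2 (fun _ h => by have := Nat.le_of_dvd (by norm_num) h; omega)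
      rw [lin_eval] at k1 k2
      have h4 := dvd_sub k1 k2
      have h5 : (n : ℤ) + -1 * (((1 : ℕ) : ℤ) * ((1 : ℕ) : ℤ) + b) -
          (n + -1 * (((1 : ℕ) : ℤ) * ((2 : ℕ) : ℤ) + b)) = 1 := by push_cast; ring
      rw [h5] at h4
      have := Int.le_of_dvd (by norm_num) h4
      omega
  · intro n hn r hr
    have hr2 := hr rfl
    rw [lin_eval]
    push_cast
    omega

theorem law_one_lin (b : ℤ) :
    Tendsto (fun β : ℝ => (1 - β) * Real.log (Real.log (1 / (1 / 2 - FFq true (lin 1 b) (-1) β))))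
      (𝓝[<] 1) (𝓝 (2 * C2 * Real.exp (-Real.eulerMascheroniConstant))) := by
  have hc : 0 < 2 * C2 * Real.exp (-Real.eulerMascheroniConstant) := by
    have := C2_pos
    positivity
  have h := Flocq_one true (lin 1 b) (-1) (1 / 2) _ 1 hc le_rfl (stAdm_lin b)
    (stOne_in true (lin 1 b) (-1) (Or.inr rfl) _ 1 hc le_rfl (lim_lin b))
    (stOneUp_in true (lin 1 b) (-1) (Or.inr rfl) _ 1 hc le_rfl (lim_lin b))
  refine h.congr' ?_
  filter_upwards [Ioo_mem_nhdsLT (show (0 : ℝ) < 1 by norm_num)] with β hβ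
  rw [formula_lin 1 b le_rfl β hβ.1 hβ.2, pow_one]

end Pool.Agent.N732.LinP
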