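import Pool.Agent.H220M.Fin5

/-!
Infinite sets of primes: every sign pattern occurs with positive upper logarithmic density, almost
surely; all the patterns of a given length at the same places.
-/

set_option autoImplicit false

namespace Pool.Agent.N732.ModLog

open Finset MeasureTheory Filter
open scoped ENNReal
open Pool.Agent.H220M

/-- The sum of `1 / (m + 1)` over the `m < x` such that `f(m+1),…,f(m+n)` is the pattern `t`. -/
noncomputable def lcnt {n : ℕ} (f : ℕ → ℤˣ) (t : Fin n → ℤˣ) (x : ℕ) : ℝ :=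
  ∑ m ∈ (range x).filter (fun m => ∀ j : Fin n, f (m + j + 1) = t j), (1 : ℝ) / (m + 1)

lemma lcnt_step {n : ℕ} (f : ℕ → ℤˣ) (t : Fin n → ℤˣ) {x y : ℕ} (hxy : x ≤ y) :
    lcnt f t x + ((cntU f t y : ℝ) - cntU f t x) / y ≤ lcnt f t y := by
  unfold lcnt cntU
  have hsub : (range x).filter (fun m => ∀ j : Fin n, f (m + j + 1) = t j) ⊆
      (range y).filter (fun m => ∀ j : Fin n, f (m + j + 1) = t j) :=
    filter_subset_filter _ (range_mono hxy)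
  rw [← sum_sdiff hsub, add_comm]
  refine add_le_add ?_ le_rfl
  have hc : (((range y).filter (fun m => ∀ j : Fin n, f (m + j + 1) = t j)).card : ℝ) -
      ((range x).filter (fun m => ∀ j : Fin n, f (m + j + 1) = t j)).card =
      (((range y).filter (fun m => ∀ j : Fin n, f (m + j + 1) = t j) \
        (range x).filter (fun m => ∀ j : Fin n, f (m + j + 1) = t j)).card : ℝ) := by
    rw [card_sdiff_of_subset hsub, Nat.cast_sub (card_le_card hsub)]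
  rw [hc, div_eq_mul_one_div, ← nsmul_eq_mul]
  refine card_nsmul_le_sum _ _ _ fun m hm => ?_
  have hm' : m < y := mem_range.1 (mem_filter.1 (mem_sdiff.1 hm).1).1
  have h1 : (m : ℝ) + 1 ≤ y := by exact_mod_cast hm'
  exact one_div_le_one_div_of_le (by positivity) h1

lemma lcnt_nonneg {n : ℕ} (f : ℕ → ℤˣ) (t : Fin n → ℤˣ) (x : ℕ) : 0 ≤ lcnt f t x :=
  sum_nonneg fun m _ => by positivity

lemma lcnt_zero {n : ℕ} (f : ℕ → ℤˣ) (t : Fin n → ℤˣ) : lcnt f t 0 = 0 := by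
  simp [lcnt]

lemma cntU_zero {n : ℕ} (f : ℕ → ℤˣ) (t : Fin n → ℤˣ) : cntU f t 0 = 0 := by
  simp [cntU]

lemma cntU_mono {n : ℕ} (f : ℕ → ℤˣ) (t : Fin n → ℤˣ) {x y : ℕ} (hxy : x ≤ y) :
    cntU f t x ≤ cntU f t y :=
  card_le_card (filter_subset_filter _ (range_mono hxy))

lemma lcnt_mono {n : ℕ} (f : ℕ → ℤˣ) (t : Fin n → ℤˣ) {x y : ℕ} (hxy : x ≤ y) :
    lcnt f t x ≤ lcnt f t y :=
  sum_le_sum_of_subset_of_nonneg (filter_subset_filter _ (range_mono hxy))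
    fun m _ _ => by positivity

/-- dyadic scales -/
lemma lcnt_dyadic {n : ℕ} (f : ℕ → ℤˣ) (t : Fin n → ℤˣ) (x₀ : ℕ) (hx₀ : 0 < x₀) (J : ℕ) :
    (1 / 2) * ∑ j ∈ range (J + 1), (cntU f t (x₀ * 2 ^ j) : ℝ) / ((x₀ * 2 ^ j : ℕ) : ℝ) +
      (1 / 2) * ((cntU f t (x₀ * 2 ^ J) : ℝ) / ((x₀ * 2 ^ J : ℕ) : ℝ)) ≤ lcnt f t (x₀ * 2 ^ J) := by
  induction J with
  | zero =>
    have h := lcnt_step f t (Nat.zero_le x₀)
    rw [lcnt_zero, cntU_zero] at h
    simp only [Nat.zero_add, range_one, sum_singleton, pow_zero, mul_one]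
    simp only [Nat.cast_zero, sub_zero, zero_add] at h
    linarith
  | succ J ih =>
    have hle : x₀ * 2 ^ J ≤ x₀ * 2 ^ (J + 1) := by
      rw [pow_succ]; nlinarith [Nat.zero_le (x₀ * 2 ^ J)]
    have hpos : 0 < x₀ * 2 ^ (J + 1) := by positivity
    have h := lcnt_step f t hle
    rw [sum_range_succ]
    have h2 : (((x₀ * 2 ^ (J + 1) : ℕ)) : ℝ) = 2 * ((x₀ * 2 ^ J : ℕ) : ℝ) := by
      push_cast; ring
    have hp : (0 : ℝ) < ((x₀ * 2 ^ J : ℕ) : ℝ) := by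
      have : 0 < x₀ * 2 ^ J := by positivity
      exact_mod_cast this
    have h3 : ((cntU f t (x₀ * 2 ^ (J + 1)) : ℝ) - cntU f t (x₀ * 2 ^ J)) /
        ((x₀ * 2 ^ (J + 1) : ℕ) : ℝ) =
        (cntU f t (x₀ * 2 ^ (J + 1)) : ℝ) / ((x₀ * 2 ^ (J + 1) : ℕ) : ℝ) -
        (1 / 2) * ((cntU f t (x₀ * 2 ^ J) : ℝ) / ((x₀ * 2 ^ J : ℕ) : ℝ)) := by
      rw [h2]; field_simp
    rw [h3] at h
    linarith

/-- if at most half of the scales are bad, then the logarithmic count is large -/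
lemma lcnt_of_scales {n : ℕ} (f : ℕ → ℤˣ) (t : Fin n → ℤˣ) (δ : ℝ) (hδ : 0 < δ) (x₀ : ℕ)
    (hx₀ : 0 < x₀) (J : ℕ)
    (h : 2 * (((range (J + 1)).filter (fun j => (cntU f t (x₀ * 2 ^ j) : ℝ) <
      δ * ((x₀ * 2 ^ j : ℕ) : ℝ))).card : ℝ) ≤ ((J + 1 : ℕ) : ℝ)) :
    δ / 4 * ((J + 1 : ℕ) : ℝ) ≤ lcnt f t (x₀ * 2 ^ J) := by
  have h1 := lcnt_dyadic f t x₀ hx₀ J
  have h2 : 0 ≤ (cntU f t (x₀ * 2 ^ J) : ℝ) / ((x₀ * 2 ^ J : ℕ) : ℝ) := by positivity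
  have h3 : δ * (((range (J + 1)).filter (fun j => ¬ (cntU f t (x₀ * 2 ^ j) : ℝ) <
      δ * ((x₀ * 2 ^ j : ℕ) : ℝ))).card : ℝ) ≤
      ∑ j ∈ range (J + 1), (cntU f t (x₀ * 2 ^ j) : ℝ) / ((x₀ * 2 ^ j : ℕ) : ℝ) := by
    have h4 : ∑ j ∈ (range (J + 1)).filter (fun j => ¬ (cntU f t (x₀ * 2 ^ j) : ℝ) <
        δ * ((x₀ * 2 ^ j : ℕ) : ℝ)), (cntU f t (x₀ * 2 ^ j) : ℝ) / ((x₀ * 2 ^ j : ℕ) : ℝ) ≤
        ∑ j ∈ range (J + 1), (cntU f t (x₀ * 2 ^ j) : ℝ) / ((x₀ * 2 ^ j : ℕ) : ℝ) :=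
      sum_le_sum_of_subset_of_nonneg (filter_subset _ _) fun j _ _ => by positivity
    refine le_trans ?_ h4
    rw [mul_comm, ← nsmul_eq_mul]
    refine card_nsmul_le_sum _ _ _ fun j hj => ?_
    have h5 := (mem_filter.1 hj).2
    push Not at h5
    have hp : (0 : ℝ) < ((x₀ * 2 ^ j : ℕ) : ℝ) := by
      have : 0 < x₀ * 2 ^ j := by positivity
      exact_mod_cast this
    rw [le_div_iff₀ hp]
    exact h5
  have h6 : (((range (J + 1)).filter (fun j => (cntU f t (x₀ * 2 ^ j) : ℝ) <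
      δ * ((x₀ * 2 ^ j : ℕ) : ℝ))).card : ℝ) + (((range (J + 1)).filter (fun j =>
      ¬ (cntU f t (x₀ * 2 ^ j) : ℝ) < δ * ((x₀ * 2 ^ j : ℕ) : ℝ))).card : ℝ) =
      ((J + 1 : ℕ) : ℝ) := by
    rw [← Nat.cast_add, card_filter_add_card_filter_not, card_range]
  nlinarith

/-- double counting -/
lemma double_count {α : Type} (P : Finset α) (J : ℕ) (hJ : 0 < J) (A : ℕ → α → Prop)
    [∀ j, DecidablePred (A j)] (c : ℝ)
    (h : ∀ j ∈ range J, ((P.filter (A j)).card : ℝ) ≤ c) :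
    ((P.filter (fun S => ((J : ℕ) : ℝ) <
      2 * (((range J).filter (fun j => A j S)).card : ℝ))).card : ℝ) ≤ 2 * c := by
  classical
  have h1 : ∑ S ∈ P, (((range J).filter (fun j => A j S)).card : ℝ) =
      ∑ j ∈ range J, ((P.filter (A j)).card : ℝ) := by
    simp only [card_filter, Nat.cast_sum]
    exact sum_comm
  have h2 : ∑ j ∈ range J, ((P.filter (A j)).card : ℝ) ≤ J * c := by
    calc _ ≤ ∑ j ∈ range J, c := sum_le_sum h
      _ = _ := by rw [sum_const, card_range, nsmul_eq_mul]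
  set B := P.filter (fun S => ((J : ℕ) : ℝ) < 2 * (((range J).filter (fun j => A j S)).card : ℝ))
    with hB
  have h3 : (B.card : ℝ) * (J / 2) ≤ ∑ S ∈ P, (((range J).filter (fun j => A j S)).card : ℝ) := by
    have h4 : ∑ S ∈ B, (((range J).filter (fun j => A j S)).card : ℝ) ≤
        ∑ S ∈ P, (((range J).filter (fun j => A j S)).card : ℝ) :=
      sum_le_sum_of_subset_of_nonneg (filter_subset _ _) fun j _ _ => by positivity
    refine le_trans ?_ h4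
    rw [← nsmul_eq_mul]
    refine card_nsmul_le_sum _ _ _ fun S hS => ?_
    have := (mem_filter.1 hS).2
    linarith
  have hJ' : (0 : ℝ) < J := by exact_mod_cast hJ
  have h5 : (B.card : ℝ) * (J / 2) ≤ J * c := h3.trans (h1.le.trans h2)
  have h6 : (B.card : ℝ) * (J / 2) = J * (B.card / 2) := by ring
  rw [h6] at h5
  have h7 := le_of_mul_le_mul_left h5 hJ'
  linarith

open Classical in
/-- the finite form at one place `N` -/
lemma finite_form (n : ℕ) (η : ℝ) (hη : 0 < η) : ∃ R : ℕ, ∀ Q : Finset ℕ, (∀ q ∈ Q, q.Prime) →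
    R ≤ Q.card → ∃ δ : ℝ, 0 < δ ∧ ∃ N₀ : ℕ, ∀ N ≥ N₀, ∀ g : ℕ → ℤˣ,
      ((Q.powerset.filter (fun S => ∃ t : Fin n → ℤˣ,
        lcnt (fun m => g m * flipU S m) t N < δ * Real.log N)).card : ℝ) ≤ η * 2 ^ Q.card := by
  obtain ⟨R, hR⟩ := stmA3 n (η / 2) (by positivity)
  refine ⟨R, fun Q hQ hcard => ?_⟩
  obtain ⟨δ, hδ, x₀, hx⟩ := hR Q hQ hcard
  -- a positive starting scale
  obtain ⟨x₁, hx₁⟩ : ∃ x₁ : ℕ, x₁ = x₀ + 1 := ⟨_, rfl⟩
  have hx₁p : 0 < x₁ := by omega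
  refine ⟨δ / 8, by positivity, x₁ ^ 2, fun N hN g => ?_⟩
  have hNx : x₁ ≤ N := by nlinarith [sq x₁]
  have hq1 : 1 ≤ N / x₁ := (Nat.one_le_div_iff hx₁p).2 hNx
  obtain ⟨J, hJ⟩ : ∃ J : ℕ, J = Nat.log 2 (N / x₁) := ⟨_, rfl⟩
  have hJ1 : 2 ^ J ≤ N / x₁ := by rw [hJ]; exact Nat.pow_log_le_self 2 (by omega)
  have hJ2 : N / x₁ < 2 ^ (J + 1) := by rw [hJ]; exact Nat.lt_pow_succ_log_self (by norm_num) _
  have hle : x₁ * 2 ^ J ≤ N := by
    calc x₁ * 2 ^ J ≤ x₁ * (N / x₁) := Nat.mul_le_mul_left _ hJ1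
      _ ≤ N := Nat.mul_div_le _ _
  have hN1 : N < x₁ * 2 ^ (J + 1) := by
    calc N < x₁ * (N / x₁ + 1) := Nat.lt_mul_div_succ N hx₁p
      _ ≤ x₁ * 2 ^ (J + 1) := Nat.mul_le_mul_left _ (by omega)
  have hlogJ : Real.log N / 2 ≤ ((J + 1 : ℕ) : ℝ) := by
    have hNp : (0 : ℝ) < N := by exact_mod_cast (by omega : 0 < N)
    have hx1p : (0 : ℝ) < x₁ := by exact_mod_cast hx₁p
    have h1 : Real.log N ≤ Real.log x₁ + (J + 1 : ℕ) * Real.log 2 := by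
      rw [← Real.log_pow, ← Real.log_mul hx1p.ne' (by positivity)]
      apply Real.log_le_log hNp
      have : (N : ℝ) < ((x₁ * 2 ^ (J + 1) : ℕ) : ℝ) := by exact_mod_cast hN1
      push_cast at this
      exact this.le
    have h2 : 2 * Real.log x₁ ≤ Real.log N := by
      have h3 : 2 * Real.log x₁ = Real.log ((x₁ : ℝ) ^ 2) := by rw [Real.log_pow]; norm_num
      rw [h3]
      apply Real.log_le_log (by positivity)
      exact_mod_cast hN
    have h4 : Real.log 2 ≤ 1 := by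
      have := Real.log_two_lt_d9
      linarith
    have h5 : ((J + 1 : ℕ) : ℝ) * Real.log 2 ≤ ((J + 1 : ℕ) : ℝ) := by
      nlinarith [(Nat.cast_nonneg (J + 1) : (0 : ℝ) ≤ ((J + 1 : ℕ) : ℝ))]
    linarith
  have hdc := double_count (Q.powerset) (J + 1) (by omega)
    (fun j S => ∃ t : Fin n → ℤˣ, (cntU (fun m => g m * flipU S m) t (x₁ * 2 ^ j) : ℝ) <
      δ * ((x₁ * 2 ^ j : ℕ) : ℝ)) (η / 2 * 2 ^ Q.card) (fun j _ => by
        have h2 : x₀ ≤ x₁ * 2 ^ j := by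
          have : 1 ≤ 2 ^ j := Nat.one_le_two_pow
          nlinarith
        exact hx (x₁ * 2 ^ j) h2 g)
  have e1 : 2 * (η / 2 * 2 ^ Q.card) = η * 2 ^ Q.card := by ring
  rw [e1] at hdc
  refine le_trans ?_ hdc
  refine Nat.cast_le.2 (card_le_card fun S hS => ?_)
  rw [mem_filter] at hS ⊢
  refine ⟨hS.1, ?_⟩
  obtain ⟨t, ht⟩ := hS.2
  by_contra hcon
  push Not at hcon
  have h1 : 2 * (((range (J + 1)).filter (fun j =>
      (cntU (fun m => g m * flipU S m) t (x₁ * 2 ^ j) : ℝ) <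
      δ * ((x₁ * 2 ^ j : ℕ) : ℝ))).card : ℝ) ≤ ((J + 1 : ℕ) : ℝ) := by
    refine le_trans ?_ hcon
    have h2 : (((range (J + 1)).filter (fun j =>
      (cntU (fun m => g m * flipU S m) t (x₁ * 2 ^ j) : ℝ) <
      δ * ((x₁ * 2 ^ j : ℕ) : ℝ))).card : ℝ) ≤ (((range (J + 1)).filter (fun j =>
      ∃ t : Fin n → ℤˣ, (cntU (fun m => g m * flipU S m) t (x₁ * 2 ^ j) : ℝ) <
      δ * ((x₁ * 2 ^ j : ℕ) : ℝ))).card : ℝ) := by
      exact_mod_cast card_le_card fun j hj => by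
        rw [mem_filter] at hj ⊢
        exact ⟨hj.1, t, hj.2⟩
    linarith
  have h3 := lcnt_of_scales _ t δ hδ x₁ hx₁p J h1
  have h4 := lcnt_mono (fun m => g m * flipU S m) t hle
  have h5 : δ / 8 * Real.log N ≤ δ / 4 * ((J + 1 : ℕ) : ℝ) := by nlinarith
  linarith

theorem meas_lcnt (g : ℕ → ℤˣ) (Q : Set ℕ) {n : ℕ} (x : ℕ) (c : ℝ) :
    MeasurableSet {ω : ℕ → Bool | ∃ t : Fin n → ℤˣ, lcnt (modif g Q ω) t x < c} := by
  refine meas_of_dep _ (x + n + 1) ?_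
  rintro ω ω' h ⟨t, ht⟩
  refine ⟨t, ?_⟩
  have he : lcnt (modif g Q ω) t x = lcnt (modif g Q ω') t x := by
    unfold lcnt
    refine Finset.sum_congr (Finset.filter_congr fun m hm => ?_) fun _ _ => rfl
    refine forall_congr' fun j => ?_
    have hm' := Finset.mem_range.1 hm
    rw [modif_congr g Q (m := m + j + 1) (N := x + n + 1) (by omega) h]
  rwa [he] at ht

theorem main (hC0 : StmC0) (g : ℕ → ℤˣ) (Q : Set ℕ) (hQ : Q.Infinite) (hp : ∀ q ∈ Q, q.Prime) :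
    ∀ᵐ ω ∂coins, ∀ n : ℕ, ∃ δ : ℝ, 0 < δ ∧ ∃ᶠ N : ℕ in atTop, ∀ t : Fin n → ℤˣ,
      δ * Real.log N ≤ lcnt (modif g Q ω) t N := by
  classical
  obtain ⟨hprob, hC⟩ := hC0
  rw [ae_all_iff]
  intro n
  rw [ae_iff]
  have key : ∀ η : ℝ, 0 < η →
      coins {ω | ¬ ∃ δ : ℝ, 0 < δ ∧ ∃ᶠ N : ℕ in atTop, ∀ t : Fin n → ℤˣ,
        δ * Real.log N ≤ lcnt (modif g Q ω) t N} ≤ ENNReal.ofReal η := by
    intro η hη
    obtain ⟨R, hR⟩ := finite_form n η hη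
    obtain ⟨Q₀, hQ₀, hcard⟩ := hQ.exists_subset_card_eq R
    obtain ⟨δ, hδ, x₀, hx₀⟩ := hR Q₀ (fun q hq => hp q (hQ₀ hq)) hcard.ge
    let B : ℕ → Set (ℕ → Bool) := fun x => {ω | ∃ t : Fin n → ℤˣ,
      lcnt (modif g Q ω) t x < δ * Real.log x}
    have hB : ∀ x ≥ x₀, coins (B x) ≤ ENNReal.ofReal η := by
      intro x hx
      refine hC g Q Q₀ (fun q hq => ⟨hQ₀ hq, hp q (hQ₀ hq)⟩)
        (fun h => ∃ t : Fin n → ℤˣ, lcnt h t x < δ * Real.log x)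
        (meas_lcnt g Q x (δ * Real.log x)) η hη.le ?_
      intro g'
      refine le_trans (le_of_eq ?_) (hx₀ x hx g')
      congr!
    let D : ℕ → Set (ℕ → Bool) := fun y => {ω | ∀ x ≥ max y x₀, ω ∈ B x}
    have hD : Monotone D := by
      intro y y' hy ω hω x hx
      exact hω x (le_trans (max_le_max hy le_rfl) hx)
    have hsub : {ω | ¬ ∃ δ : ℝ, 0 < δ ∧ ∃ᶠ N : ℕ in atTop, ∀ t : Fin n → ℤˣ,
        δ * Real.log N ≤ lcnt (modif g Q ω) t N} ⊆ ⋃ y, D y := by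
      intro ω hω
      have h1 : ¬ ∃ᶠ N : ℕ in atTop, ∀ t : Fin n → ℤˣ,
          δ * Real.log N ≤ lcnt (modif g Q ω) t N := by
        intro h
        exact hω ⟨δ, hδ, h⟩
      rw [Filter.not_frequently, Filter.eventually_atTop] at h1
      obtain ⟨y, hy⟩ := h1
      refine Set.mem_iUnion.2 ⟨y, ?_⟩
      intro x hx
      have h2 := hy x (le_trans (le_max_left _ _) hx)
      push Not at h2
      exact h2
    refine le_trans (measure_mono hsub) ?_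
    rw [hD.measure_iUnion]
    refine iSup_le fun y => ?_
    refine le_trans (measure_mono ?_) (hB (max y x₀) (le_max_right _ _))
    intro ω hω
    exact hω _ le_rfl
  refine le_antisymm ?_ bot_le
  refine ENNReal.le_of_forall_pos_le_add ?_
  intro ε hε _
  rw [zero_add]
  have := key (ε : ℝ) (by exact_mod_cast hε)
  simpa using this

end Pool.Agent.N732.ModLog
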